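import Pool.Agent.L5helper60.SR.Mat

set_option autoImplicit false

/-!
# The formula is false for symmetric matrices of rank four
-/

namespace Pool.Agent.L5helper60.SR

open Module Submodule Function

/-- three symmetric matrices of rank four -/
def ex (i : Fin 3) : Matrix (Fin 6) (Fin 6) ℚ :=
  ![!![0, 0, 0, 0, 0, 0; 0, 0, 0, 0, 0, -1; 0, 0, 0, 0, 1, 0; 0, 0, 0, 0, 0, 0; 0, 0, 1, 0, 0, 0;
      0, -1, 0, 0, 0, 0],
    !![0, 0, 0, 0, 0, 1; 0, 0, 0, 0, 0, 0; 0, 0, 0, -1, 0, 0; 0, 0, -1, 0, 0, 0; 0, 0, 0, 0, 0, 0;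
      1, 0, 0, 0, 0, 0],
    !![0, 0, 0, 0, -1, 0; 0, 0, 0, 1, 0, 0; 0, 0, 0, 0, 0, 0; 0, 1, 0, 0, 0, 0; -1, 0, 0, 0, 0, 0;
      0, 0, 0, 0, 0, 0]] i

/-- the cross products with the unit vectors -/
def cr (i : Fin 3) (u : Fin 3 → ℚ) : Fin 3 → ℚ :=
  ![![0, -u 2, u 1], ![u 2, 0, -u 0], ![-u 1, u 0, 0]] i

/-- the first half -/
def fh : (Fin 6 → ℚ) →ₗ[ℚ] (Fin 3 → ℚ) := LinearMap.funLeft ℚ ℚ ![0, 1, 2]
/-- the second half -/
def sh : (Fin 6 → ℚ) →ₗ[ℚ] (Fin 3 → ℚ) := LinearMap.funLeft ℚ ℚ ![3, 4, 5]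

lemma fh_ex (i : Fin 3) (w : Fin 6 → ℚ) : fh ((ex i).mulVec w) = cr i (sh w) := by
  ext j
  fin_cases i <;> fin_cases j <;>
    simp [fh, sh, ex, cr, Matrix.mulVec, dotProduct, Fin.sum_univ_succ, LinearMap.funLeft_apply]

lemma sh_ex (i : Fin 3) (w : Fin 6 → ℚ) : sh ((ex i).mulVec w) = -cr i (fh w) := by
  ext j
  fin_cases i <;> fin_cases j <;>
    simp [fh, sh, ex, cr, Matrix.mulVec, dotProduct, Fin.sum_univ_succ, LinearMap.funLeft_apply]

lemma ex_symm (i : Fin 3) : (ex i).IsSymm := by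
  ext r s
  fin_cases i <;> fin_cases r <;> fin_cases s <;> simp [ex]

/-- the span of the cross products -/
def cs (P : Submodule ℚ (Fin 3 → ℚ)) : Submodule ℚ (Fin 3 → ℚ) :=
  span ℚ {x | ∃ i, ∃ u ∈ P, x = cr i u}

lemma two_le {Z : Submodule ℚ (Fin 3 → ℚ)} {a b : Fin 3 → ℚ} (ha : a ∈ Z) (hb : b ∈ Z)
    (h : LinearIndependent ℚ ![a, b]) : 2 ≤ finrank ℚ Z := by
  have h1 := finrank_span_eq_card h
  rw [Fintype.card_fin] at h1
  refine h1.ge.trans (finrank_mono ?_)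
  rw [span_le]
  rintro _ ⟨i, rfl⟩
  fin_cases i
  · exact ha
  · exact hb

lemma le_cs (P : Submodule ℚ (Fin 3 → ℚ)) : finrank ℚ P ≤ finrank ℚ (cs P) := by
  have hmem : ∀ i, ∀ u ∈ P, cr i u ∈ cs P := fun i u hu => subset_span ⟨i, u, hu, rfl⟩
  by_cases h0 : P = ⊥
  · rw [h0, finrank_bot]
    exact Nat.zero_le _
  by_cases h1 : P = ⊤
  · have h2 : cs P = ⊤ := by
      rw [eq_top_iff]
      intro w _
      have e0 := hmem 1 (Pi.single 2 (w 0)) (by rw [h1]; trivial)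
      have e1 := hmem 2 (Pi.single 0 (w 1)) (by rw [h1]; trivial)
      have e2 := hmem 0 (Pi.single 1 (w 2)) (by rw [h1]; trivial)
      have e3 := (cs P).add_mem ((cs P).add_mem e0 e1) e2
      convert e3 using 1
      ext j
      fin_cases j <;> simp [cr]
    rw [h2, h1]
  · have h2 : finrank ℚ P ≤ 2 := by
      have h3 : finrank ℚ P < finrank ℚ (Fin 3 → ℚ) := Submodule.finrank_lt h1
      rw [Module.finrank_fin_fun] at h3
      omega
    refine h2.trans ?_
    obtain ⟨u, hu, hne⟩ := (Submodule.ne_bot_iff _).1 h0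
    obtain ⟨j, hj⟩ := Function.ne_iff.1 hne
    rw [Pi.zero_apply] at hj
    fin_cases j
    · refine two_le (hmem 1 u hu) (hmem 2 u hu) ?_
      rw [LinearIndependent.pair_iff]
      intro s t hst
      have e1 := congrFun hst 1
      have e2 := congrFun hst 2
      simp [cr] at e1 e2 hj
      exact ⟨e2.resolve_right hj, e1.resolve_right hj⟩
    · refine two_le (hmem 0 u hu) (hmem 2 u hu) ?_
      rw [LinearIndependent.pair_iff]
      intro s t hst
      have e1 := congrFun hst 0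
      have e2 := congrFun hst 2
      simp [cr] at e1 e2 hj
      exact ⟨e2.resolve_right hj, e1.resolve_right hj⟩
    · refine two_le (hmem 0 u hu) (hmem 1 u hu) ?_
      rw [LinearIndependent.pair_iff]
      intro s t hst
      have e1 := congrFun hst 0
      have e2 := congrFun hst 1
      simp [cr] at e1 e2 hj
      exact ⟨e2.resolve_right hj, e1.resolve_right hj⟩

lemma halves {w : Fin 6 → ℚ} (h1 : fh w = 0) (h2 : sh w = 0) : w = 0 := by
  ext j
  have a := fun j => congrFun h1 j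
  have b := fun j => congrFun h2 j
  fin_cases j
  · exact a 0
  · exact a 1
  · exact a 2
  · exact b 0
  · exact b 1
  · exact b 2

lemma le_ims (U : Submodule ℚ (Fin 6 → ℚ)) : finrank ℚ U ≤ finrank ℚ (ims 0 ex U) := by
  have hmem : ∀ i, ∀ u ∈ U, (ex i).mulVec u ∈ ims 0 ex U := fun i u hu =>
    mem_sup_right (mem_iSup_of_mem i ⟨u, hu, rfl⟩)
  rw [fr_map U fh, fr_map (ims 0 ex U) sh]
  apply add_le_add
  · refine (le_cs _).trans (finrank_mono ?_)
    rw [cs, span_le]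
    rintro _ ⟨i, _, ⟨u, hu, rfl⟩, rfl⟩
    refine ⟨-(ex i).mulVec u, Submodule.neg_mem _ (hmem i u hu), ?_⟩
    rw [map_neg, sh_ex, neg_neg]
  · -- vectors with first half zero
    have h1 : finrank ℚ (U ⊓ LinearMap.ker fh : Submodule ℚ _) =
        finrank ℚ ((U ⊓ LinearMap.ker fh).map sh) := by
      rw [fr_map (U ⊓ LinearMap.ker fh) sh]
      have : U ⊓ LinearMap.ker fh ⊓ LinearMap.ker sh = ⊥ := by
        rw [eq_bot_iff]
        rintro w ⟨⟨-, h1⟩, h2⟩
        exact halves h1 h2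
      rw [this, finrank_bot, add_zero]
    have h2 : finrank ℚ (ims 0 ex U ⊓ LinearMap.ker sh : Submodule ℚ _) =
        finrank ℚ ((ims 0 ex U ⊓ LinearMap.ker sh).map fh) := by
      rw [fr_map (ims 0 ex U ⊓ LinearMap.ker sh) fh]
      have : ims 0 ex U ⊓ LinearMap.ker sh ⊓ LinearMap.ker fh = ⊥ := by
        rw [eq_bot_iff]
        rintro w ⟨⟨-, h1⟩, h2⟩
        exact halves h2 h1
      rw [this, finrank_bot, add_zero]
    rw [h1, h2]
    refine (le_cs _).trans (finrank_mono ?_)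
    rw [cs, span_le]
    rintro _ ⟨i, _, ⟨u, ⟨hu, hf⟩, rfl⟩, rfl⟩
    refine ⟨(ex i).mulVec u, ⟨hmem i u hu, ?_⟩, fh_ex i u⟩
    show sh _ = 0
    rw [sh_ex, show fh u = 0 from hf]
    ext j
    fin_cases i <;> fin_cases j <;> simp [cr]

lemma vl_ex (x : Fin 3 → ℚ) (w : Fin 6 → ℚ) (h1 : ∃ s : ℚ, fh w = s • x)
    (h2 : ∃ s : ℚ, sh w = s • x) : (vl 0 ex x).mulVec w = 0 := by
  obtain ⟨s, hs⟩ := h1
  obtain ⟨t, ht⟩ := h2
  have e : (vl 0 ex x).mulVec w = ∑ i, x i • (ex i).mulVec w := by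
    rw [vl, zero_add, Matrix.sum_mulVec]
    simp only [Matrix.smul_mulVec]
  rw [e]
  apply halves
  · rw [map_sum]
    simp only [map_smul, fh_ex, ht]
    ext j
    fin_cases j <;> simp [cr, Fin.sum_univ_succ] <;> ring
  · rw [map_sum]
    simp only [map_smul, sh_ex, hs]
    ext j
    fin_cases j <;> simp [cr, Fin.sum_univ_succ] <;> ring

lemma vl_ex_rank (x : Fin 3 → ℚ) : (vl 0 ex x).rank ≤ 4 := by
  by_cases hx : x = 0
  · have : vl 0 ex x = 0 := by
      rw [vl, hx]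
      simp
    rw [this, Matrix.rank_zero]
    omega
  have h1 := rank_add_ker (vl 0 ex x)
  have h2 : 2 ≤ finrank ℚ (LinearMap.ker (vl 0 ex x).mulVecLin) := by
    obtain ⟨a, ha⟩ : ∃ a : Fin 6 → ℚ, a = ![x 0, x 1, x 2, 0, 0, 0] := ⟨_, rfl⟩
    obtain ⟨b, hb⟩ : ∃ b : Fin 6 → ℚ, b = ![0, 0, 0, x 0, x 1, x 2] := ⟨_, rfl⟩
    have fa : fh a = x := by
      rw [ha]; ext j; fin_cases j <;> rfl
    have sa : sh a = 0 := by
      rw [ha]; ext j; fin_cases j <;> rfl
    have fb : fh b = 0 := by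
      rw [hb]; ext j; fin_cases j <;> rfl
    have sb : sh b = x := by
      rw [hb]; ext j; fin_cases j <;> rfl
    have hli : LinearIndependent ℚ ![a, b] := by
      rw [LinearIndependent.pair_iff]
      intro s t hst
      have e1 := congrArg fh hst
      have e2 := congrArg sh hst
      rw [map_add, map_smul, map_smul, fa, fb, smul_zero, add_zero, map_zero] at e1
      rw [map_add, map_smul, map_smul, sa, sb, smul_zero, zero_add, map_zero] at e2
      exact ⟨(smul_eq_zero.1 e1).resolve_right hx, (smul_eq_zero.1 e2).resolve_right hx⟩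
    have h3 := finrank_span_eq_card hli
    rw [Fintype.card_fin] at h3
    refine h3.ge.trans (finrank_mono ?_)
    rw [span_le]
    rintro _ ⟨i, rfl⟩
    fin_cases i
    · exact vl_ex x a ⟨1, by rw [fa, one_smul]⟩ ⟨0, by rw [sa, zero_smul]⟩
    · exact vl_ex x b ⟨0, by rw [fb, zero_smul]⟩ ⟨1, by rw [sb, one_smul]⟩
  omega

lemma ex_rank (i : Fin 3) : (ex i).rank ≤ 4 := by
  have h := vl_ex_rank (Pi.single i 1)
  have : vl 0 ex (Pi.single i 1) = ex i := by
    rw [vl, zero_add, Finset.sum_eq_single i]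
    · simp
    · intro j _ hj
      simp [hj]
    · simp
  rwa [this] at h

/-- The formula is false for symmetric matrices of rank four. -/
theorem sharp (x : Fin 3 → ℚ) (U : Submodule ℚ (Fin 6 → ℚ)) :
    (vl 0 ex x).rank + finrank ℚ U + 2 ≤ 6 + finrank ℚ (ims 0 ex U) := by
  have h1 := vl_ex_rank x
  have h2 := le_ims U
  omega

end Pool.Agent.L5helper60.SR
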