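import Pool.Agent.L5helper60.SR.Srk

set_option autoImplicit false

/-!
# The algorithm
-/

namespace Pool.Agent.L5helper60.SR

open Module Submodule Function
open Pool.Agent.Lib.CX Pool.Agent.Lib.helper22.CXDet
open Pool.Agent.Lib.Par (rk rk_eq Rep pt_rk ls_opt)

/-- an entry -/
def ent (L : Inp) (i s t : ℕ) : ℚ := ((L.getD i []).getD s []).getD t 0
/-- a common denominator -/
def cden (L : Inp) : ℕ := (L.flatten.flatten.map fun q : ℚ => q.den).prod
/-- an entry times the common denominator -/
def ient (L : Inp) (i s t : ℕ) : ℤ := (ent L i s t).num * ((cden L / (ent L i s t).den : ℕ) : ℤ)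
/-- the table of the matrix for given values of the variables, times the common denominator -/
def et (L : Inp) (x : List ℕ) : List (List ℤ) := tb (dim L) fun s t =>
  ient L 0 s t + ((List.range (L.length - 1)).map fun i => (x.getD i 0 : ℤ) * ient L (i + 1) s t).sum
/-- the tables of the coefficient matrices; zero first -/
def ct (L : Inp) (j : ℕ) : List (List ℤ) := if j = 0 then [] else tb (dim L) (ient L j)
/-- the potential -/
def ps (L : Inp) (x : List ℕ) : ℕ :=
  ((List.range (L.length - 1 + 1)).map fun j => srk (dim L) (et L x) (ct L j)).sum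
/-- the bound for the values of the variables and for the potential -/
def nb (L : Inp) : ℕ := (L.length - 1 + 1) * dim L + 1 + (dim L + 1)
/-- the neighbours -/
def cd (L : Inp) (x : List ℕ) : List (List ℕ) :=
  (List.range (L.length - 1)).flatMap fun i => (List.range (L.length - 1)).flatMap
    fun j => (List.range (nb L + 1)).flatMap fun v => (List.range (nb L + 1)).map fun w =>
      (x.set i v).set j w
/-- the substitution found by the local search -/
def sol (L : Inp) : List ℕ :=
  (fun x => ((cd L x).filter (ps L x < ps L ·)).headD x)^[nb L] (List.replicate (L.length - 1) 0)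

lemma sol_inv (L : Inp) (k : ℕ) :
    ∀ x, x = (fun x => ((cd L x).filter (ps L x < ps L ·)).headD x)^[k]
        (List.replicate (L.length - 1) 0) →
      x.length = L.length - 1 ∧ ∀ v ∈ x, v ≤ nb L := by
  induction k with
  | zero =>
    rintro _ rfl
    simp
  | succ k ih =>
    rintro _ rfl
    rw [iterate_succ_apply']
    obtain ⟨h1, h2⟩ := ih _ rfl
    generalize (fun x => ((cd L x).filter (ps L x < ps L ·)).headD x)^[k]
      (List.replicate (L.length - 1) 0) = x at *
    rcases h : (cd L x).filter (ps L x < ps L ·) with _ | ⟨y, l⟩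
    · exact ⟨h1, h2⟩
    have := (List.mem_filter.1 (h ▸ List.mem_cons_self : y ∈ _)).1
    simp only [cd, List.mem_flatMap, List.mem_map, List.mem_range] at this
    obtain ⟨i, -, j, -, v, hv, w, hw, rfl⟩ := this
    refine ⟨by simp [h1], fun u hu => ?_⟩
    rcases List.mem_or_eq_of_mem_set hu with hu | rfl
    · rcases List.mem_or_eq_of_mem_set hu with hu | rfl
      exacts [h2 u hu, by omega]
    omega

section

variable {α : Type} [Enc α] {L : α → Inp} {i j k : α → ℕ} {x : α → List ℕ}

@[fun_prop] lemma pt_num {q : α → ℚ} (hq : PT q) : PT fun a => (q a).num :=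
  PT.fst (f := fun a => ((q a).num, (q a).den)) (hq.cast fun _ => rfl)

@[fun_prop] lemma pt_den {q : α → ℚ} (hq : PT q) : PT fun a => (q a).den :=
  PT.snd (f := fun a => ((q a).num, (q a).den)) (hq.cast fun _ => rfl)

@[fun_prop] lemma pt_dim (hL : PT L) : PT fun a => dim (L a) := by unfold dim; fun_prop

@[fun_prop] lemma pb_dim (hL : PT L) : PB fun a => dim (L a) := by
  unfold dim; fun_prop

@[fun_prop] lemma pt_nb (hL : PT L) : PT fun a => nb (L a) := by unfold nb; fun_prop

@[fun_prop] lemma pb_nb (hL : PT L) : PB fun a => nb (L a) := by unfold nb; fun_prop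

@[fun_prop] lemma pt_ent (hL : PT L) (hi : PT i) (hj : PT j) (hk : PT k) :
    PT fun a => ent (L a) (i a) (j a) (k a) := by unfold ent; fun_prop

@[fun_prop] lemma pt_cden (hL : PT L) : PT fun a => cden (L a) := by unfold cden; fun_prop

attribute [local irreducible] ent cden dim nb

@[fun_prop] lemma pt_ient (hL : PT L) (hi : PT i) (hj : PT j) (hk : PT k) :
    PT fun a => ient (L a) (i a) (j a) (k a) := by unfold ient; fun_prop

attribute [local irreducible] ient

@[fun_prop] lemma pt_tb' {f : α → ℕ → ℕ → ℤ} (hi : PT i) (hb : PB i)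
    (hf : PT fun p : (α × ℕ) × ℕ => f p.1.1 p.1.2 p.2) : PT fun a => tb (i a) (f a) :=
  PT.map (PT.map hf (by fun_prop)) (by fun_prop)

attribute [local irreducible] tb

@[fun_prop] lemma pt_et (hL : PT L) (hx : PT x) : PT fun a => et (L a) (x a) := by
  unfold et; fun_prop

@[fun_prop] lemma pt_ct (hL : PT L) (hj : PT j) : PT fun a => ct (L a) (j a) := by
  unfold ct; fun_prop

attribute [local irreducible] et ct

@[fun_prop] lemma pt_srk {f g : α → List (List ℤ)} (hi : PT i) (hb : PB i) (hf : PT f)
    (hg : PT g) : PT fun a => srk (i a) (f a) (g a) := by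
  unfold srk se en; fun_prop

attribute [local irreducible] srk

@[fun_prop] lemma pt_ps (hL : PT L) (hx : PT x) : PT fun a => ps (L a) (x a) := by
  unfold ps; fun_prop

@[fun_prop] lemma pt_cd (hL : PT L) (hx : PT x) : PT fun a => cd (L a) (x a) := by
  unfold cd; fun_prop

attribute [local irreducible] ps cd

@[fun_prop] lemma pt_sol (hL : PT L) : PT fun a => sol (L a) := by
  have h4 : PT sol := PT.iterate (B := fun L => (L.length - 1) * (3 * nb L + 2 + 1) + 2)
    (by fun_prop) (by fun_prop) (by fun_prop) (by fun_prop) (by fun_prop) fun L k _ => by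
      obtain ⟨h1, h2⟩ := sol_inv L k _ rfl
      exact (size_list_le fun v hv => (size_nat_mono (h2 v hv)).trans
        (size_nat_le _)).trans_eq (by rw [h1])
  exact h4.comp hL

end

end Pool.Agent.L5helper60.SR
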