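import Pool.Agent.Lib.lead.CXRat

set_option autoImplicit false

/-!
# Singularity of symmetric matrices whose entries are polynomials of degree at most one

Definitions only.
-/

namespace Pool.Agent.L5helper60.SR

open MvPolynomial

/-- The input: the list of the coefficient matrices `A₀, A₁, …, A_k`, each given as the list of its
rows. -/
abbrev Inp := List (List (List ℚ))

/-- The size of the matrices: the number of rows of `A₀`. -/
def dim (L : Inp) : ℕ := (L.headD []).length

/-- The matrix `A_i` (missing entries are zero). -/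
def mat (L : Inp) (i : ℕ) : Matrix (Fin (dim L)) (Fin (dim L)) ℚ :=
  Matrix.of fun s t => ((L.getD i []).getD s []).getD t 0

/-- The matrix `A₀ + y₀ A₁ + … + y_{k-1} A_k`. -/
def val (L : Inp) (y : ℕ → ℚ) : Matrix (Fin (dim L)) (Fin (dim L)) ℚ :=
  mat L 0 + ∑ i ∈ Finset.range (L.length - 1), y i • mat L (i + 1)

/-- The polynomial matrix `A₀ + x₀ A₁ + … + x_{k-1} A_k`. -/
noncomputable def pol (L : Inp) : Matrix (Fin (dim L)) (Fin (dim L)) (MvPolynomial ℕ ℚ) :=
  (mat L 0).map C + ∑ i ∈ Finset.range (L.length - 1),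
    (X i : MvPolynomial ℕ ℚ) • (mat L (i + 1)).map C

/-- Every totally isotropic subspace of the quadratic form `uᵀ M u` has dimension at most one modulo
the kernel of `M`: if `uᵀ M u = vᵀ M v = uᵀ M v = 0` then some nontrivial linear combination of `u`
and `v` is in the kernel of `M`. -/
def Witt {K : Type*} [Field K] {n : ℕ} (M : Matrix (Fin n) (Fin n) K) : Prop :=
  ∀ u v : Fin n → K, u ⬝ᵥ M.mulVec u = 0 → v ⬝ᵥ M.mulVec v = 0 → u ⬝ᵥ M.mulVec v = 0 →
    ∃ a b : K, (a ≠ 0 ∨ b ≠ 0) ∧ M.mulVec (a • u + b • v) = 0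

end Pool.Agent.L5helper60.SR
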