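import Pool.Agent.L5helper60.SR.Main

set_option autoImplicit false

/-!
# Singularity, the formula for the rank and the decision problem
-/

namespace Pool.Agent.L5helper60.SR

open Module Submodule Function
open Pool.Agent.Lib.CX Pool.Agent.Lib.helper22.CXDet
open Pool.Agent.Lib.Par (Rep)

lemma det_eq_zero_iff {n : ℕ} (M : Matrix (Fin n) (Fin n) ℚ) : M.det = 0 ↔ M.rank < n := by
  have h1 := rank_add_ker M
  rw [← Matrix.exists_mulVec_eq_zero_iff]
  constructor
  · rintro ⟨v, hv, h⟩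
    have h2 : finrank ℚ (LinearMap.ker M.mulVecLin) ≠ 0 := by
      rw [Ne, Submodule.finrank_eq_zero]
      intro h3
      apply hv
      have h4 : v ∈ LinearMap.ker M.mulVecLin := h
      rw [h3] at h4
      exact h4
    omega
  · intro h
    have h2 : LinearMap.ker M.mulVecLin ≠ ⊥ := by
      intro h3
      rw [h3, finrank_bot] at h1
      omega
    obtain ⟨v, hv, hne⟩ := (Submodule.ne_bot_iff _).1 h2
    exact ⟨v, hne, hv⟩

lemma pol_map (L : Inp) (y : ℕ → ℚ) : (pol L).map (MvPolynomial.eval y) = val L y := by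
  ext s t
  simp [pol, val, Matrix.sum_apply]

lemma eval_det (L : Inp) (y : ℕ → ℚ) : MvPolynomial.eval y (pol L).det = (val L y).det := by
  rw [RingHom.map_det, ← pol_map]
  rfl

/-- **Singularity is decided at one point.** -/
theorem Good.singular {L : Inp} (h : Good L) :
    (pol L).det = 0 ↔ (SR.val L (fun i => ((sol L).getD i 0 : ℕ))).rank < dim L := by
  constructor
  · intro h1
    rw [← det_eq_zero_iff, ← eval_det, h1, map_zero]
  · intro h1
    apply MvPolynomial.funext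
    intro y
    rw [eval_det, map_zero, det_eq_zero_iff]
    exact (h.max y).trans_lt h1

/-- the sum of the images of `U` -/
def im (L : Inp) (U : Submodule ℚ (Fin (dim L) → ℚ)) : Submodule ℚ (Fin (dim L) → ℚ) :=
  ⨆ i ∈ Finset.range L.length, U.map (mat L i).mulVecLin

lemma mem_im (L : Inp) (U : Submodule ℚ (Fin (dim L) → ℚ)) {u : Fin (dim L) → ℚ} (hu : u ∈ U)
    {i : ℕ} (hi : i < L.length) : (mat L i).mulVec u ∈ im L U := by
  rw [im]
  exact (le_iSup₂_of_le i (Finset.mem_range.2 hi) le_rfl :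
    U.map (mat L i).mulVecLin ≤ _) ⟨u, hu, rfl⟩

/-- The easy inequality. -/
theorem rank_le (L : Inp) (U : Submodule ℚ (Fin (dim L) → ℚ)) (y : ℕ → ℚ) :
    (val L y).rank + finrank ℚ U ≤ dim L + finrank ℚ (im L U) := by
  rcases Nat.eq_zero_or_pos L.length with h0 | h0
  · have hd : dim L = 0 := by
      rw [List.length_eq_zero_iff] at h0
      rw [h0]
      rfl
    have h1 := rank_add_ker (val L y)
    have h2 := Submodule.finrank_le U
    rw [Module.finrank_fin_fun] at h2
    omega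
  have h1 := rank_add_ker (val L y)
  have h2 := fr_map U (val L y).mulVecLin
  have h3 : finrank ℚ (U.map (val L y).mulVecLin) ≤ finrank ℚ (im L U) := by
    apply finrank_mono
    rintro _ ⟨u, hu, rfl⟩
    rw [Matrix.mulVecLin_apply, val, Matrix.add_mulVec, Matrix.sum_mulVec]
    refine (im L U).add_mem (mem_im L U hu h0) ((im L U).sum_mem fun i hi => ?_)
    rw [Matrix.smul_mulVec]
    exact (im L U).smul_mem _ (mem_im L U hu (by have := Finset.mem_range.1 hi; omega))
  have h4 : finrank ℚ (U ⊓ LinearMap.ker (val L y).mulVecLin : Submodule ℚ _) ≤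
      finrank ℚ (LinearMap.ker (val L y).mulVecLin) := finrank_mono inf_le_right
  omega

/-- **The rank is the noncommutative rank.** -/
theorem Good.formula {L : Inp} (h : Good L) : ∃ U : Submodule ℚ (Fin (dim L) → ℚ),
    (SR.val L (fun i => ((sol L).getD i 0 : ℕ))).rank + finrank ℚ U =
      dim L + finrank ℚ (im L U) := by
  obtain ⟨U, W, h1, h2, h3⟩ := h.cert
  refine ⟨U, le_antisymm (rank_le L U _) ?_⟩
  rw [h3]
  apply Nat.add_le_add_left
  have hle : im L U ≤ W.comap (bl 1) := by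
    rw [im]
    refine iSup₂_le fun i hi => ?_
    rintro _ ⟨u, hu, rfl⟩
    show bl 1 ((mat L i).mulVec u) ∈ W
    have h4 : bl 1 ((mat L i).mulVec u) = bl (mat L i) u := by
      refine LinearMap.ext fun v => ?_
      rw [bl_symm (h.symm i), bl_apply, Matrix.one_mulVec]
    have h5 : bl ((cden L : ℚ) • mat L i) u ∈ W := by
      rcases Nat.eq_zero_or_pos i with rfl | hi0
      · exact h1 u hu
      · have h6 := h2 ⟨i - 1, by have := Finset.mem_range.1 hi; omega⟩ u hu
        rw [FT] at h6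
        simpa [Nat.sub_add_cancel hi0] using h6
    rw [h4]
    rw [bl_smul, LinearMap.smul_apply] at h5
    have h6 := W.smul_mem (cden L : ℚ)⁻¹ h5
    rwa [smul_smul, inv_mul_cancel₀ (cden_ne L), one_smul] at h6
  apply finrank_le_of_bl
  intro w hw
  exact ⟨bl 1 w, hle hw, fun v => by rw [bl_apply, Matrix.one_mulVec]⟩

/-! ### Classes of matrices -/

/-- Matrices which are positive semidefinite on a hyperplane. -/
lemma witt_of_hyperplane {n : ℕ} {M : Matrix (Fin n) (Fin n) ℚ} (hM : M.IsSymm)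
    (w : Fin n → ℚ) (h : ∀ u, w ⬝ᵥ u = 0 → 0 ≤ u ⬝ᵥ M.mulVec u) : Witt M := by
  -- isotropic vectors of the hyperplane are orthogonal to it
  have h1 : ∀ z, w ⬝ᵥ z = 0 → z ⬝ᵥ M.mulVec z = 0 → ∀ y, w ⬝ᵥ y = 0 →
      y ⬝ᵥ M.mulVec z = 0 := by
    intro z hz hzz y hy
    by_contra hne
    have hs : z ⬝ᵥ M.mulVec y = y ⬝ᵥ M.mulVec z := by
      rw [← bl_apply, ← bl_apply, sy_bl hM]
    have h2 := h (y - ((y ⬝ᵥ M.mulVec y + 1) / (2 * (y ⬝ᵥ M.mulVec z))) • z) (by
      rw [dotProduct_sub, dotProduct_smul, hz, hy]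
      simp)
    rw [Matrix.mulVec_sub, Matrix.mulVec_smul, dotProduct_sub, sub_dotProduct, sub_dotProduct,
      dotProduct_smul, smul_dotProduct, smul_dotProduct, dotProduct_smul, hzz, hs] at h2
    simp only [smul_eq_mul] at h2
    have h3 : (y ⬝ᵥ M.mulVec y + 1) / (2 * (y ⬝ᵥ M.mulVec z)) * (y ⬝ᵥ M.mulVec z) =
        (y ⬝ᵥ M.mulVec y + 1) / 2 := by
      field_simp
    rw [h3] at h2
    linarith
  intro u v huu hvv huv
  have hvu : v ⬝ᵥ M.mulVec u = 0 := by
    rw [← bl_apply, sy_bl hM, bl_apply, huv]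
  -- a combination in the hyperplane
  obtain ⟨a, b, hab, hz⟩ : ∃ a b : ℚ, (a ≠ 0 ∨ b ≠ 0) ∧ w ⬝ᵥ (a • u + b • v) = 0 := by
    by_cases h2 : w ⬝ᵥ u = 0
    · exact ⟨1, 0, Or.inl one_ne_zero, by simp [h2]⟩
    · refine ⟨-(w ⬝ᵥ v), w ⬝ᵥ u, Or.inr h2, ?_⟩
      rw [dotProduct_add, dotProduct_smul, dotProduct_smul, smul_eq_mul, smul_eq_mul]
      ring
  obtain ⟨z, hzd⟩ : ∃ z, z = a • u + b • v := ⟨_, rfl⟩
  rw [← hzd] at hz
  have hzz : z ⬝ᵥ M.mulVec z = 0 := by
    rw [hzd]
    simp [Matrix.mulVec_add, Matrix.mulVec_smul, huu, hvv, huv, hvu]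
  have huz : u ⬝ᵥ M.mulVec z = 0 := by
    rw [hzd]
    simp [Matrix.mulVec_add, Matrix.mulVec_smul, huu, huv]
  have hvz : v ⬝ᵥ M.mulVec z = 0 := by
    rw [hzd]
    simp [Matrix.mulVec_add, Matrix.mulVec_smul, hvv, hvu]
  -- vectors orthogonal to the hyperplane
  have h2 : ∀ x : Fin n → ℚ, (∀ y, w ⬝ᵥ y = 0 → y ⬝ᵥ x = 0) → ∃ c : ℚ, x = c • w := by
    intro x hx
    by_cases hw : w = 0
    · refine ⟨0, ?_⟩
      rw [zero_smul]
      exact dotProduct_self_eq_zero.1 (hx x (by rw [hw, zero_dotProduct]))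
    · have hww : w ⬝ᵥ w ≠ 0 := fun h => hw (dotProduct_self_eq_zero.1 h)
      refine ⟨(w ⬝ᵥ x) / (w ⬝ᵥ w), ?_⟩
      rw [← sub_eq_zero]
      have h3 : w ⬝ᵥ (x - ((w ⬝ᵥ x) / (w ⬝ᵥ w)) • w) = 0 := by
        rw [dotProduct_sub, dotProduct_smul, smul_eq_mul, div_mul_cancel₀ _ hww, sub_self]
      apply dotProduct_self_eq_zero.1
      rw [dotProduct_sub, dotProduct_smul, hx _ h3]
      rw [dotProduct_comm] at h3
      rw [h3]
      simp
  obtain ⟨c, hc⟩ := h2 _ (h1 z hz hzz)
  by_cases hc0 : c = 0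
  · refine ⟨a, b, hab, ?_⟩
    rw [← hzd, hc, hc0, zero_smul]
  -- both vectors are in the hyperplane
  · rw [hc, dotProduct_smul, smul_eq_mul, mul_eq_zero] at huz hvz
    have hu := huz.resolve_left hc0
    have hv := hvz.resolve_left hc0
    rw [dotProduct_comm] at hu hv
    obtain ⟨c₁, hc₁⟩ := h2 _ (h1 u hu huu)
    obtain ⟨c₂, hc₂⟩ := h2 _ (h1 v hv hvv)
    by_cases h3 : c₁ = 0
    · refine ⟨1, 0, Or.inl one_ne_zero, ?_⟩
      rw [one_smul, zero_smul, add_zero, hc₁, h3, zero_smul]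
    · refine ⟨-c₂, c₁, Or.inr h3, ?_⟩
      rw [Matrix.mulVec_add, Matrix.mulVec_smul, Matrix.mulVec_smul, hc₁, hc₂, smul_smul,
        smul_smul, ← add_smul]
      have : -c₂ * c₁ + c₁ * c₂ = 0 := by ring
      rw [this, zero_smul]

lemma witt_neg {n : ℕ} {M : Matrix (Fin n) (Fin n) ℚ} (h : Witt (-M)) : Witt M := by
  have := witt_smul (d := -1) (by norm_num) h
  rwa [neg_smul, one_smul, neg_neg] at this

/-! ### The decision problem -/

/-- the instances of the decision problem -/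
def Inst (L : Inp) : Prop :=
  ∀ i < L.length, (mat L i).IsSymm ∧ (1 ≤ i → (mat L i).rank ≤ 3)

lemma Inst.good {L : Inp} (h : Inst L) : Good L := by
  have h0 : ∀ i, (mat L i).IsSymm := by
    intro i
    by_cases hi : i < L.length
    · exact (h i hi).1
    · rw [mat_default L (not_lt.1 hi)]
      exact Matrix.isSymm_zero
  refine ⟨h0, fun i hi1 => ?_⟩
  by_cases hi : i < L.length
  · exact witt_of_rank (h0 i) ((h i hi).2 hi1)
  · rw [mat_default L (not_lt.1 hi)]
    exact witt_of_rank Matrix.isSymm_zero (by rw [Matrix.rank_zero]; omega)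

/-- the test of symmetry -/
def tsym (L : Inp) : Bool := (List.range L.length).all fun i => (List.range (dim L)).all fun s =>
  (List.range (dim L)).all fun t => decide (ent L i s t = ent L i t s)

/-- the test of the ranks -/
def trk (L : Inp) : Bool := (List.range (L.length - 1)).all fun i =>
  decide (srk (dim L) (ct L (i + 1)) [] ≤ 3)

/-- the algorithm for the decision problem -/
def alg (L : Inp) : Bool := tsym L && (trk L && decide (srk (dim L) (et L (sol L)) [] < dim L))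

attribute [local irreducible] ent cden dim nb ient et ct srk sol

lemma pt_alg : PT alg := by
  unfold alg tsym trk
  fun_prop

lemma tsym_iff (L : Inp) : tsym L = true ↔ ∀ i < L.length, (mat L i).IsSymm := by
  simp only [tsym, List.all_eq_true, List.mem_range, decide_eq_true_eq]
  refine forall₂_congr fun i _ => ?_
  rw [Matrix.IsSymm.ext_iff]
  constructor
  · intro h s t
    rw [mat_apply, mat_apply]
    exact h t t.2 s s.2
  · intro h s hs t ht
    have := h ⟨t, ht⟩ ⟨s, hs⟩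
    rwa [mat_apply, mat_apply] at this

lemma srk_rank {n : ℕ} {A : List (List ℤ)} {M : Matrix (Fin n) (Fin n) ℚ} (hM : M.IsSymm)
    (hA : Rep A (bl M)) : srk n A [] = M.rank := by
  have z0 : Sy (0 : (Fin n → ℚ) →ₗ[ℚ] Dual ℚ (Fin n → ℚ)) := fun _ _ => rfl
  have h1 := srk_eq (C := []) hA (fun s t => by simp [en] :
    Rep [] (0 : (Fin n → ℚ) →ₗ[ℚ] Dual ℚ (Fin n → ℚ))) (sy_bl hM) z0
  rw [kk_zero] at h1
  have h2 := rank_bl hM
  omega

/-- **The decision problem is in P.** -/
theorem inP : InP fun L : Inp => Inst L ∧ (pol L).det = 0 := by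
  refine ⟨alg, pt_alg, fun L => ?_⟩
  rw [alg, Bool.and_eq_true, Bool.and_eq_true, tsym_iff, decide_eq_true_eq]
  have hsm : ∀ {M : Matrix (Fin (dim L)) (Fin (dim L)) ℚ}, M.IsSymm →
      ((cden L : ℚ) • M).IsSymm := fun h => by
    rw [Matrix.IsSymm, Matrix.transpose_smul, h.eq]
  have hr : ∀ i, (mat L (i + 1)).IsSymm →
      srk (dim L) (ct L (i + 1)) [] = (mat L (i + 1)).rank := by
    intro i hi
    rw [srk_rank (hsm hi) (rep_ct L (i + 1) (by omega)), rank_smul' (cden_ne L)]
  have htr : (∀ i < L.length, (mat L i).IsSymm) →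
      (trk L = true ↔ ∀ i < L.length, 1 ≤ i → (mat L i).rank ≤ 3) := by
    intro hs
    simp only [trk, List.all_eq_true, List.mem_range, decide_eq_true_eq]
    constructor
    · intro h i hi hi1
      have h1 := h (i - 1) (by omega)
      rw [hr _ (by rw [Nat.sub_add_cancel hi1]; exact hs i hi), Nat.sub_add_cancel hi1] at h1
      exact h1
    · intro h i hi
      rw [hr i (hs _ (by omega))]
      exact h (i + 1) (by omega) (by omega)
  have hdet : Good L → (srk (dim L) (et L (sol L)) [] < dim L ↔ (pol L).det = 0) := by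
    intro hg
    rw [hg.singular]
    have h1 := rep_et L (sol L)
    rw [ev_eq L (fun i => (((sol L).getD i 0 : ℕ) : ℚ))] at h1
    rw [srk_rank (hsm (hg.val _)) h1, rank_smul' (cden_ne L)]
  constructor
  · rintro ⟨h1, h2⟩
    have hs : ∀ i < L.length, (mat L i).IsSymm := fun i hi => (h1 i hi).1
    exact ⟨hs, (htr hs).2 fun i hi => (h1 i hi).2, (hdet h1.good).2 h2⟩
  · rintro ⟨h1, h2, h3⟩
    have hi : Inst L := fun i hi => ⟨h1 i hi, (htr h1).1 h2 i hi⟩
    exact ⟨hi, (hdet hi.good).1 h3⟩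

end Pool.Agent.L5helper60.SR
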