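import Mathlib

set_option autoImplicit false

/-!
# Symmetric forms: perturbation by forms of Witt index at most one
-/

namespace Pool.Agent.L5helper60.SR

open Module Submodule

universe u

variable {K : Type u} [Field K] {V : Type u} [AddCommGroup V] [Module K V]

/-- symmetric forms -/
def Sy (A : V →ₗ[K] Dual K V) : Prop := ∀ u v, A u v = A v u

/-- no two-dimensional totally isotropic subspace, modulo the kernel -/
def Wi (T : V →ₗ[K] Dual K V) : Prop := ∀ u v, T u u = 0 → T v v = 0 → T u v = 0 →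
  ∃ a b : K, (a ≠ 0 ∨ b ≠ 0) ∧ a • T u + b • T v = 0

lemma Sy.add {A T : V →ₗ[K] Dual K V} (hA : Sy A) (hT : Sy T) (t : K) : Sy (A + t • T) := by
  intro u v
  simp [hA u v, hT u v]

lemma Sy.kill {A : V →ₗ[K] Dual K V} (h : Sy A) {u : V} (hu : A u = 0) (v : V) : A v u = 0 := by
  rw [h v u, hu, LinearMap.zero_apply]

/-- the form vanishes on the kernel -/
def R1 (A T : V →ₗ[K] Dual K V) : Prop := ∀ u v, A u = 0 → A v = 0 → T u v = 0

section fd

variable [FiniteDimensional K V]

omit [FiniteDimensional K V] in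
theorem fr_map [FiniteDimensional K V] {W : Type u} [AddCommGroup W] [Module K W]
    (N : Submodule K V) (p : V →ₗ[K] W) :
    finrank K N = finrank K (N.map p) + finrank K (N ⊓ LinearMap.ker p : Submodule K V) := by
  have := (p ∘ₗ N.subtype).finrank_range_add_finrank_ker
  rw [LinearMap.range_comp, range_subtype, LinearMap.ker_comp, ← finrank_map_subtype_eq N,
    map_comap_subtype] at this
  exact this.symm

/-- The rank of `f + t g` is at least the rank of `f`, except for few `t`. -/
theorem generic {W : Type u} [AddCommGroup W] [Module K W] (f g : V →ₗ[K] W) :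
    ∃ B : Finset K, B.card ≤ finrank K V ∧
      ∀ t ∉ B, finrank K (LinearMap.ker (f + t • g)) ≤ finrank K (LinearMap.ker f) := by
  classical
  obtain ⟨S, hS⟩ := (LinearMap.ker f).exists_isCompl
  obtain ⟨l, hl⟩ := (f ∘ₗ S.subtype).exists_leftInverse_of_injective (by
    rw [LinearMap.ker_comp, ← disjoint_iff_comap_eq_bot]; exact hS.disjoint.symm)
  let e : Module.End K S := l ∘ₗ g ∘ₗ S.subtype
  refine ⟨e.charpoly.roots.toFinset.image fun r => -r⁻¹, Finset.card_image_le.trans
    ((Multiset.toFinset_card_le _).trans ((Polynomial.card_roots' _).trans ?_)), fun t ht => ?_⟩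
  · rw [LinearMap.charpoly_natDegree]; exact finrank_le S
  have h1 : LinearMap.ker (f + t • g) ⊓ S = ⊥ := by
    by_contra hne
    obtain ⟨v, ⟨h1, h2⟩, h3⟩ := (Submodule.ne_bot_iff _).1 hne
    have h4 : (⟨v, h2⟩ : S) + t • e ⟨v, h2⟩ = 0 := by
      have a := LinearMap.congr_fun hl ⟨v, h2⟩
      have b := congrArg l (show f v + t • g v = 0 from h1)
      simp only [LinearMap.comp_apply, subtype_apply, LinearMap.id_apply] at a
      rw [map_add, map_smul, a, map_zero] at b
      exact b
    have h5 : t ≠ 0 := by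
      rintro rfl
      exact h3 (by simpa using congrArg Subtype.val h4)
    refine ht (Finset.mem_image.2 ⟨-t⁻¹, ?_, by simp⟩)
    rw [Multiset.mem_toFinset, Polynomial.mem_roots e.charpoly_monic.ne_zero,
      ← Module.End.hasEigenvalue_iff_isRoot_charpoly]
    refine Module.End.hasEigenvalue_of_hasEigenvector (x := ⟨v, h2⟩)
      ⟨?_, fun h => h3 (congrArg Subtype.val h)⟩
    rw [Module.End.mem_eigenspace_iff, neg_smul, eq_neg_iff_add_eq_zero, add_comm,
      ← smul_eq_zero_iff_right h5, smul_add, smul_smul, mul_inv_cancel₀ h5, one_smul, h4]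
  have h2 := finrank_sup_add_finrank_inf_eq (LinearMap.ker (f + t • g)) S
  have h3 := finrank_add_eq_of_isCompl hS
  have h4 := finrank_le (LinearMap.ker (f + t • g) ⊔ S)
  rw [h1, finrank_bot] at h2
  omega

lemma Sy.rng {A : V →ₗ[K] Dual K V} (h : Sy A) {f : Dual K V} (hf : ∀ u, A u = 0 → f u = 0) :
    ∃ w, A w = f := by
  have h1 : LinearMap.range A ≤ (LinearMap.ker A).dualAnnihilator := by
    rintro _ ⟨w, rfl⟩
    exact (mem_dualAnnihilator _).2 fun u hu => h.kill hu w
  have h2 := Subspace.finrank_add_finrank_dualAnnihilator_eq (LinearMap.ker A)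
  have h3 := A.finrank_range_add_finrank_ker
  exact (eq_of_le_of_finrank_eq h1 (by omega)).ge ((mem_dualAnnihilator _).2 hf)

/-- the dimension of the kernel of a composition with an isomorphism -/
lemma ker_comp_equiv {W : Type u} [AddCommGroup W] [Module K W] (f : V →ₗ[K] W) (e : V ≃ₗ[K] V) :
    finrank K (LinearMap.ker (f ∘ₗ e.toLinearMap)) = finrank K (LinearMap.ker f) := by
  have h1 := (f ∘ₗ e.toLinearMap).finrank_range_add_finrank_ker
  have h2 := f.finrank_range_add_finrank_ker
  have h3 : LinearMap.range (f ∘ₗ e.toLinearMap) = LinearMap.range f := by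
    rw [LinearMap.range_comp, LinearEquiv.range, Submodule.map_top]
  rw [h3] at h1
  omega

/-- **First order.** If the form `T` does not vanish on the kernel of `A` then the rank of
`A + t T` is larger than the rank of `A`, except for few `t`. -/
lemma first_order {A T : V →ₗ[K] Dual K V} (hA : Sy A) (h : ¬ R1 A T) :
    ∃ B : Finset K, B.card ≤ finrank K V + 1 ∧ ∀ t ∉ B,
      finrank K (LinearMap.ker (A + t • T)) < finrank K (LinearMap.ker A) := by
  classical
  obtain ⟨C, hC⟩ := (LinearMap.ker A).exists_isCompl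
  obtain ⟨p, hp⟩ : ∃ p : V →ₗ[K] V, p = (LinearMap.ker A).subtype ∘ₗ
    (Submodule.projectionOnto _ _ hC) := ⟨_, rfl⟩
  have hp1 : ∀ u, A (p u) = 0 := by
    intro u
    rw [hp]
    exact ((Submodule.projectionOnto _ _ hC) u).2
  have hp2 : ∀ u, A u = 0 → p u = u := by
    intro u hu
    rw [hp, LinearMap.comp_apply]
    have := Submodule.projectionOnto_apply_left hC ⟨u, hu⟩
    rw [this]
    rfl
  have hpp : ∀ u, p (p u) = p u := fun u => hp2 _ (hp1 u)
  obtain ⟨B, hB1, hB2⟩ := generic (A + T ∘ₗ p) (T - T ∘ₗ p)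
  refine ⟨insert 0 B, (Finset.card_insert_le _ _).trans (by omega), ?_⟩
  intro t ht
  rw [Finset.mem_insert, not_or] at ht
  obtain ⟨ht0, htB⟩ := ht
  -- the substitution
  obtain ⟨e, he⟩ : ∃ e : V ≃ₗ[K] V, ∀ u, e u = t⁻¹ • p u + (u - p u) := by
    refine ⟨LinearEquiv.ofLinearMap (t⁻¹ • p + (LinearMap.id - p)) (t • p + (LinearMap.id - p))
      ?_ ?_, fun u => rfl⟩
    · refine LinearMap.ext fun u => ?_
      simp [hpp, smul_smul, inv_mul_cancel₀ ht0]
    · refine LinearMap.ext fun u => ?_
      simp [hpp, smul_smul, mul_inv_cancel₀ ht0]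
  have h1 : (A + t • T) ∘ₗ e.toLinearMap = A + T ∘ₗ p + t • (T - T ∘ₗ p) := by
    ext u v
    simp only [LinearMap.comp_apply, LinearEquiv.coe_coe, he, LinearMap.add_apply,
      LinearMap.smul_apply, LinearMap.sub_apply, map_add, map_sub, map_smul, hp1,
      LinearMap.zero_apply, smul_eq_mul]
    field_simp
    ring
  rw [← ker_comp_equiv (A + t • T) e, h1]
  refine lt_of_le_of_lt (hB2 t htB) ?_
  -- the rank at `t = 0`
  unfold R1 at h
  push Not at h
  obtain ⟨u, v, hu, hv, huv⟩ := h
  have h2 := A.finrank_range_add_finrank_ker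
  have h3 := (A + T ∘ₗ p).finrank_range_add_finrank_ker
  have h4 : LinearMap.range A < LinearMap.range (A + T ∘ₗ p) := by
    refine lt_of_le_of_ne ?_ ?_
    · rintro _ ⟨w, rfl⟩
      refine ⟨w - p w, ?_⟩
      ext x
      simp [hp1, hpp]
    · intro h5
      have h6 : T u ∈ LinearMap.range A := by
        rw [h5]
        refine ⟨u, ?_⟩
        ext x
        simp [hu, hp2 u hu]
      obtain ⟨w, hw⟩ := h6
      apply huv
      rw [← hw]
      exact hA.kill hv w
  have h5 := Submodule.finrank_lt_finrank_of_lt h4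
  omega

/-- normal form of an active form -/
structure Nf (A T : V →ₗ[K] Dual K V) (q p : Dual K V) (f s : V) : Prop where
  k : A f = 0
  one : q f = 1
  im : A s = p
  z : q s = 0
  pne : p ≠ 0
  tf : T f = p
  an : ∀ u, p u = 0 → T u u = 0 → T u = q u • p

lemma exists_nf {A T : V →ₗ[K] Dual K V} (hA : Sy A) (hT : Sy T) (hw : Wi T) (h1 : R1 A T)
    (h2 : ∃ k, A k = 0 ∧ T k ≠ 0) : ∃ q p f s, Nf A T q p f s := by
  obtain ⟨k, hk, hTk⟩ := h2
  obtain ⟨z₀, hz₀⟩ : ∃ z, T k z ≠ 0 := by
    by_contra hn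
    push Not at hn
    exact hTk (LinearMap.ext fun z => by rw [hn z]; rfl)
  obtain ⟨z, hz⟩ : ∃ z, T k z = 1 := ⟨(T k z₀)⁻¹ • z₀, by
    rw [map_smul, smul_eq_mul, inv_mul_cancel₀ hz₀]⟩
  have hkk : T k k = 0 := h1 k k hk hk
  have hzk : T z k = 1 := by rw [hT, hz]
  obtain ⟨s, hs⟩ := hA.rng (f := T k) fun u hu => h1 k u hk hu
  refine ⟨T z, T k, k, s - T z s • k, hk, hzk, ?_, ?_, hTk, rfl, ?_⟩
  · rw [map_sub, map_smul, hk, smul_zero, sub_zero, hs]
  · rw [map_sub, map_smul, hzk]
    simp
  · intro u hu huu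
    obtain ⟨a, b, hab, h3⟩ := hw u k huu hkk (by rw [hT, hu])
    have ha : a ≠ 0 := by
      rintro rfl
      rw [zero_smul, zero_add] at h3
      exact (smul_ne_zero (hab.resolve_left (fun h => h rfl)) hTk) h3
    have h4 : T u = (-(b / a)) • T k := by
      have h5 : T u = a⁻¹ • (a • T u + b • T k) - (b / a) • T k := by
        rw [smul_add, smul_smul, smul_smul, inv_mul_cancel₀ ha, one_smul, div_eq_inv_mul]
        abel
      rw [h5, h3, smul_zero, zero_sub]
      exact (neg_smul (b / a) (T k)).symm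
    have h5 : T z u = -(b / a) := by
      rw [hT, h4, LinearMap.smul_apply, hz]
      simp
    rw [h5]
    exact h4

end fd

variable {A T T' : V →ₗ[K] Dual K V} {q p q' p' : Dual K V} {f s f' s' : V}

lemma Nf.van (hA : Sy A) (n : Nf A T q p f s) {u : V} (hu : A u = 0) : p u = 0 := by
  rw [← n.im]
  exact hA.kill hu s

lemma Nf.eqK (hA : Sy A) (hR : R1 A T) (n : Nf A T q p f s) {u : V} (hu : A u = 0) :
    T u = q u • p := n.an u (n.van hA hu) (hR u u hu hu)

/-- **Second and third order**, for one form. -/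
lemma Nf.ps [FiniteDimensional K V] (hA : Sy A) (hT : Sy T) (hR : R1 A T) (n : Nf A T q p f s)
    {t : K} (ht : t ≠ 0) (e : finrank K (LinearMap.ker (A + t • T)) = finrank K (LinearMap.ker A))
    (h1 : R1 (A + t • T) T) : p s = 0 ∧ T s = 0 := by
  have h2 : ∀ w, (A + t • T) w = 0 → p w = 0 ∧ T w = q w • p ∧ A (w + (t * q w) • s) = 0 := by
    intro w hw
    have h3 := LinearMap.congr_fun hw f
    have h4 : p w = 0 := by
      rw [LinearMap.add_apply, LinearMap.add_apply, hA.kill n.k, LinearMap.smul_apply,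
        LinearMap.smul_apply, hT w f, n.tf] at h3
      simpa [ht] using h3
    have h5 := n.an w h4 (h1 w w hw hw)
    refine ⟨h4, h5, ?_⟩
    have h6 : A w + t • T w = 0 := hw
    rw [h5] at h6
    rw [map_add, map_smul, n.im, mul_smul]
    exact h6
  obtain ⟨w, hw, hqw⟩ : ∃ w, (A + t • T) w = 0 ∧ q w ≠ 0 := by
    by_contra hn
    push Not at hn
    have h3 : LinearMap.ker (A + t • T) ≤ LinearMap.ker A := by
      intro w hw
      have h4 := (h2 w hw).2.2
      rw [hn w hw, mul_zero, zero_smul, add_zero] at h4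
      exact h4
    have h4 : f ∈ LinearMap.ker (A + t • T) := by
      rw [eq_of_le_of_finrank_eq h3 e]
      exact n.k
    have h5 : A f + t • T f = 0 := h4
    rw [n.k, n.tf, zero_add] at h5
    exact smul_ne_zero ht n.pne h5
  obtain ⟨h3, h4, h5⟩ := h2 w hw
  have h6 := n.van hA h5
  have h7 := n.eqK hA hR h5
  rw [map_add, h3, map_smul, zero_add, smul_eq_mul] at h6
  rw [map_add, map_smul, map_add, map_smul, n.z, h4, smul_zero, add_zero,
    add_eq_left] at h7
  exact ⟨(mul_eq_zero.1 h6).resolve_left (mul_ne_zero ht hqw),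
    (smul_eq_zero.1 h7).resolve_left (mul_ne_zero ht hqw)⟩

lemma Nf.ker1 (hA : Sy A) (hR : R1 A T) (n : Nf A T q p f s) (hs : T s = 0) (t : K) {u : V}
    (hu : A u = 0) : (A + t • T) (u - (t * q u) • s) = 0 := by
  rw [LinearMap.add_apply, LinearMap.smul_apply, map_sub, map_sub, map_smul, map_smul, hu, n.im,
    hs, n.eqK hA hR hu, smul_zero, sub_zero, zero_sub, mul_smul, neg_add_cancel]

/-- **Second and third order**, for two forms. -/
lemma Nf.second (hK : (2 : K) ≠ 0) (hA : Sy A) (hT' : Sy T') (hR : R1 A T) (hR' : R1 A T') (n : Nf A T q p f s)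
    (n' : Nf A T' q' p' f' s') (hs : T s = 0) {t₁ t₂ : K} (h0 : t₁ ≠ 0) (h0' : t₂ ≠ 0)
    (hne : t₁ ≠ t₂) (h1 : R1 (A + t₁ • T) T') (h2 : R1 (A + t₂ • T) T') :
    T' s = q' s • p' := by
  have key : ∀ t : K, t ≠ 0 → R1 (A + t • T) T' → ∀ u, A u = 0 →
      q u * (t * q u * T' s s - 2 * q' u * p' s) = 0 := by
    intro t ht hRt u hu
    have h3 := hRt _ _ (n.ker1 hA hR hs t hu) (n.ker1 hA hR hs t hu)
    have h4 : T' u u = 0 := hR' u u hu hu
    have h5 : T' u s = q' u * p' s := by
      rw [n'.eqK hA hR' hu]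
      rfl
    have h6 : T' s u = q' u * p' s := by rw [hT', h5]
    simp only [map_sub, map_smul, LinearMap.sub_apply, LinearMap.smul_apply, smul_eq_mul, h4, h5,
      h6] at h3
    have h7 : t * (q u * (t * q u * T' s s - 2 * q' u * p' s)) = 0 := by linear_combination h3
    exact (mul_eq_zero.1 h7).resolve_left ht
  have hss : T' s s = 0 := by
    have k1 := key t₁ h0 h1 f n.k
    have k2 := key t₂ h0' h2 f n.k
    rw [n.one] at k1 k2
    have h3 : (t₁ - t₂) * T' s s = 0 := by linear_combination k1 - k2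
    exact (mul_eq_zero.1 h3).resolve_left (sub_ne_zero.2 hne)
  have hp : p' s = 0 := by
    by_contra hp
    have h3 : ∀ u, A u = 0 → q u * q' u = 0 := by
      intro u hu
      have k1 := key t₁ h0 h1 u hu
      rw [hss] at k1
      have h4 : (-2 * p' s) * (q u * q' u) = 0 := by linear_combination k1
      exact (mul_eq_zero.1 h4).resolve_left (mul_ne_zero (neg_ne_zero.2 hK) hp)
    have h4 : q' f = 0 := by
      have := h3 f n.k
      rwa [n.one, one_mul] at this
    have h5 : q f' = 0 := by
      have := h3 f' n'.k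
      rwa [n'.one, mul_one] at this
    have h6 := h3 (f + f') (by rw [map_add, n.k, n'.k, add_zero])
    rw [map_add, map_add, n.one, n'.one, h4, h5, add_zero, zero_add, mul_one] at h6
    exact one_ne_zero h6
  exact n'.an s hp hss

/-- **Inactive forms.** -/
lemma Nf.inactive (hA : Sy A) (hR : R1 A T) (n : Nf A T q p f s) (hs : T s = 0) {t : K}
    (ht : t ≠ 0) (h1 : ∀ u, A u = 0 → T' u = 0) (h2 : ∀ u, (A + t • T) u = 0 → T' u = 0) :
    T' s = 0 := by
  have h3 := h2 _ (n.ker1 hA hR hs t n.k)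
  rw [map_sub, h1 f n.k, map_smul, n.one, zero_sub, neg_eq_zero, mul_one] at h3
  exact (smul_eq_zero.1 h3).resolve_left ht

/-- Semidefinite forms. -/
lemma wi_of_semidefinite {T : V →ₗ[K] Dual K V} (h : ∀ u, T u u = 0 → T u = 0) : Wi T := by
  intro u v hu _ _
  exact ⟨1, 0, Or.inl one_ne_zero, by rw [h u hu]; simp⟩

/-- Forms of rank at most three. -/
lemma wi_of_rank [FiniteDimensional K V] {T : V →ₗ[K] Dual K V} (hT : Sy T)
    (h : finrank K (LinearMap.range T) ≤ 3) : Wi T := by
  intro u v huu hvv huv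
  by_contra hn
  push Not at hn
  have hli : LinearIndependent K ![T u, T v] := by
    rw [LinearIndependent.pair_iff]
    intro a b hab
    by_contra h1
    rw [not_and_or] at h1
    exact hn a b h1 hab
  -- the common zeros of `T u` and `T v` contain the kernel, `u` and `v`
  obtain ⟨N, hN⟩ : ∃ N, N = LinearMap.ker T ⊔ span K {u, v} := ⟨_, rfl⟩
  have h1 := Subspace.finrank_add_finrank_dualAnnihilator_eq N
  have h2 := T.finrank_range_add_finrank_ker
  have h3 : 2 ≤ finrank K N.dualAnnihilator := by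
    have h4 := finrank_span_eq_card hli
    rw [Fintype.card_fin] at h4
    refine h4.ge.trans ?_
    apply finrank_mono
    rw [span_le]
    have h6 : ∀ w, T w u = 0 → T w v = 0 → T w ∈ N.dualAnnihilator := by
      intro w h7 h8
      rw [mem_dualAnnihilator]
      intro x hx
      rw [hN] at hx
      obtain ⟨y, hy, z, hz, rfl⟩ := mem_sup.1 hx
      obtain ⟨a, b, rfl⟩ := mem_span_pair.1 hz
      rw [map_add, hT.kill hy w, map_add, map_smul, map_smul, h7, h8]
      simp
    rintro _ ⟨i, rfl⟩
    fin_cases i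
    · exact h6 u huu huv
    · exact h6 v (by rw [hT, huv]) hvv
  have h4 : finrank K (LinearMap.ker T) + 2 ≤ finrank K N := by
    have h5 : finrank K (N.map T) = 2 := by
      have h6 : N.map T = span K (Set.range ![T u, T v]) := by
        rw [hN, Submodule.map_sup, map_span]
        rw [show (LinearMap.ker T).map T = ⊥ from LinearMap.le_ker_iff_map.1 le_rfl]
        rw [bot_sup_eq, Set.image_pair]
        congr 1
        rw [Matrix.range_cons, Matrix.range_cons, Matrix.range_empty, Set.union_empty]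
        rfl
      rw [h6, finrank_span_eq_card hli, Fintype.card_fin]
    have h6 := fr_map N T
    have h7 : LinearMap.ker T ≤ N ⊓ LinearMap.ker T := by
      rw [hN]
      exact le_inf le_sup_left le_rfl
    have h8 := finrank_mono h7
    omega
  omega

end Pool.Agent.L5helper60.SR
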