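import Pool.Agent.L5helper60.SR.Alg

set_option autoImplicit false

/-!
# Correctness of the algorithm
-/

namespace Pool.Agent.L5helper60.SR

open Module Submodule Function
open Pool.Agent.Lib.CX Pool.Agent.Lib.helper22.CXDet
open Pool.Agent.Lib.Par (Rep ls_opt)

/-! ### Tables -/

lemma cden_pos (L : Inp) : 0 < cden L := by
  apply Nat.pos_of_ne_zero
  rw [cden, Ne, List.prod_eq_zero_iff, List.mem_map]
  rintro ⟨q, -, h⟩
  exact q.den_nz h

lemma ient_cast (L : Inp) (i s t : ℕ) : (ient L i s t : ℚ) = cden L * ent L i s t := by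
  by_cases h0 : ent L i s t = 0
  · simp [ient, h0]
  have hmem : ent L i s t ∈ L.flatten.flatten := by
    unfold ent at h0 ⊢
    have h1 : t < ((L.getD i []).getD s []).length := by
      by_contra hn
      exact h0 (List.getD_eq_default _ _ (not_lt.1 hn))
    have h2 : s < (L.getD i []).length := by
      by_contra hn
      rw [List.getD_eq_default _ _ (not_lt.1 hn)] at h1
      simp at h1
    have h3 : i < L.length := by
      by_contra hn
      rw [List.getD_eq_default _ _ (not_lt.1 hn)] at h2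
      simp at h2
    rw [List.mem_flatten]
    refine ⟨(L.getD i []).getD s [], ?_, ?_⟩
    · rw [List.mem_flatten]
      refine ⟨L.getD i [], ?_, ?_⟩
      · rw [List.getD_eq_getElem _ _ h3]
        exact List.getElem_mem _
      · rw [List.getD_eq_getElem _ _ h2]
        exact List.getElem_mem _
    · rw [List.getD_eq_getElem _ _ h1]
      exact List.getElem_mem _
  have hdvd : (ent L i s t).den ∣ cden L :=
    List.dvd_prod (List.mem_map_of_mem hmem)
  rw [ient, Int.cast_mul, Int.cast_natCast,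
    Nat.cast_div hdvd (by exact_mod_cast (ent L i s t).den_nz)]
  conv_rhs => rw [← Rat.num_div_den (ent L i s t)]
  ring

lemma mat_apply (L : Inp) (i : ℕ) (s t : Fin (dim L)) : mat L i s t = ent L i s t := rfl

lemma mat_default (L : Inp) {i : ℕ} (h : L.length ≤ i) : mat L i = 0 := by
  ext s t
  rw [mat_apply, ent, List.getD_eq_default _ _ h]
  simp

lemma rep_ct (L : Inp) (j : ℕ) (hj : j ≠ 0) :
    Rep (ct L j) (bl ((cden L : ℚ) • mat L j)) := by
  intro s t
  rw [ct, if_neg hj, en_tb s.2 t.2, bl_single, ient_cast, Matrix.smul_apply, mat_apply,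
    smul_eq_mul]

lemma rep_zero (L : Inp) : Rep (ct L 0) (0 : (Fin (dim L) → ℚ) →ₗ[ℚ] _) := by
  intro s t
  simp [ct, en]

/-- the constant term -/
noncomputable def F0 (L : Inp) : (Fin (dim L) → ℚ) →ₗ[ℚ] Dual ℚ (Fin (dim L) → ℚ) :=
  bl ((cden L : ℚ) • mat L 0)

/-- the coefficients -/
noncomputable def FT (L : Inp) (i : Fin (L.length - 1)) :
    (Fin (dim L) → ℚ) →ₗ[ℚ] Dual ℚ (Fin (dim L) → ℚ) :=
  bl ((cden L : ℚ) • mat L (i + 1))

lemma ev_eq (L : Inp) (y : ℕ → ℚ) :
    ev (F0 L) (FT L) (fun i : Fin (L.length - 1) => y i) = bl ((cden L : ℚ) • val L y) := by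
  rw [ev, F0, val, smul_add, bl_add, Finset.smul_sum, bl_sum, Finset.sum_range]
  congr 1
  apply Finset.sum_congr rfl
  intro i _
  rw [FT, ← bl_smul, smul_comm]

lemma rep_et (L : Inp) (x : List ℕ) :
    Rep (et L x) (ev (F0 L) (FT L) (fun i : Fin (L.length - 1) => ((x.getD i 0 : ℕ) : ℚ))) := by
  intro s t
  rw [ev_eq L (fun i => ((x.getD i 0 : ℕ) : ℚ)), bl_single, et, en_tb s.2 t.2,
    ← List.sum_toFinset _ List.nodup_range, List.toFinset_range, val, Matrix.smul_apply,
    Matrix.add_apply, Matrix.sum_apply]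
  push_cast
  rw [ient_cast, smul_eq_mul, mul_add, Finset.mul_sum, mat_apply]
  congr 1
  apply Finset.sum_congr rfl
  intro i _
  rw [ient_cast, Matrix.smul_apply, mat_apply, smul_eq_mul]
  ring

/-- The promise: symmetric matrices; all except the first one have Witt index at most one. -/
structure Good (L : Inp) : Prop where
  symm : ∀ i, (mat L i).IsSymm
  witt : ∀ i, 1 ≤ i → Witt (mat L i)

variable {L : Inp}

lemma cden_ne (L : Inp) : (cden L : ℚ) ≠ 0 := by exact_mod_cast (cden_pos L).ne'

lemma Good.sy0 (h : Good L) : Sy (F0 L) := sy_bl (by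
  rw [Matrix.IsSymm, Matrix.transpose_smul, (h.symm 0).eq])

lemma Good.syT (h : Good L) (i) : Sy (FT L i) := sy_bl (by
  rw [Matrix.IsSymm, Matrix.transpose_smul, (h.symm _).eq])

lemma Good.wiT (h : Good L) (i) : Wi (FT L i) := wi_bl (by
  rw [Matrix.IsSymm, Matrix.transpose_smul, (h.symm _).eq])
  (witt_smul (cden_ne L) (h.witt _ (by omega)))

lemma Good.val (h : Good L) (y : ℕ → ℚ) : (val L y).IsSymm := by
  rw [Matrix.IsSymm, SR.val, Matrix.transpose_add, (h.symm 0).eq, Matrix.transpose_sum]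
  congr 1
  apply Finset.sum_congr rfl
  intro i _
  rw [Matrix.transpose_smul, (h.symm _).eq]

lemma Good.ker_ev (h : Good L) (y : ℕ → ℚ) :
    (SR.val L y).rank + finrank ℚ (LinearMap.ker (ev (F0 L) (FT L)
      (fun i : Fin (L.length - 1) => y i))) = dim L := by
  rw [ev_eq, ← rank_smul' (M := SR.val L y) (cden_ne L)]
  apply rank_bl
  rw [Matrix.IsSymm, Matrix.transpose_smul, (h.val y).eq]

lemma Good.ps_eq (h : Good L) (x : List ℕ) :
    ps L x + pot (F0 L) (FT L) (fun i : Fin (L.length - 1) => ((x.getD i 0 : ℕ) : ℚ)) =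
      (L.length - 1 + 1) * dim L := by
  have hs := sy_ev h.sy0 h.syT (fun i : Fin (L.length - 1) => ((x.getD i 0 : ℕ) : ℚ))
  have z0 : Sy (0 : (Fin (dim L) → ℚ) →ₗ[ℚ] Dual ℚ (Fin (dim L) → ℚ)) := fun _ _ => rfl
  rw [ps, ← List.sum_toFinset _ List.nodup_range, List.toFinset_range, Finset.sum_range,
    Fin.sum_univ_succ, pot, Fintype.sum_option]
  have e0 := srk_eq (rep_et L x) (rep_zero L) hs z0
  have e1 : ∀ i : Fin (L.length - 1), srk (dim L) (et L x) (ct L (i.succ : Fin _)) +
      kk (ev (F0 L) (FT L) (fun i : Fin (L.length - 1) => ((x.getD i 0 : ℕ) : ℚ)))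
        (fam (FT L) (some i)) = dim L := by
    intro i
    exact srk_eq (rep_et L x) (rep_ct L (i.succ : Fin _) (by simp)) hs (h.syT i)
  have e2 := Finset.sum_congr (rfl : (Finset.univ : Finset (Fin (L.length - 1))) = Finset.univ)
    fun i _ => e1 i
  rw [Finset.sum_add_distrib, Finset.sum_const, Finset.card_univ, Fintype.card_fin,
    smul_eq_mul] at e2
  change srk (dim L) (et L x) (ct L 0) + _ + (kk _ 0 + _) = _
  rw [add_mul, one_mul]
  omega

/-- **The local search finds an optimum.** -/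
theorem Good.cert (h : Good L) : ∃ (U : Submodule ℚ (Fin (dim L) → ℚ))
    (W : Submodule ℚ (Dual ℚ (Fin (dim L) → ℚ))), (∀ u ∈ U, F0 L u ∈ W) ∧
      (∀ i, ∀ u ∈ U, FT L i u ∈ W) ∧
      (SR.val L (fun i => ((sol L).getD i 0 : ℕ))).rank + finrank ℚ U =
        dim L + finrank ℚ W := by
  have hp := h.ps_eq
  have o := ls_opt (cd L) (ps L) (List.replicate (L.length - 1) 0) (K := nb L) fun x => by
    have := hp x
    unfold nb
    omega
  have hl := (sol_inv L (nb L) _ rfl).1
  change ∀ y ∈ cd L (sol L), _ ≤ ps L (sol L) at o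
  change (sol L).length = _ at hl
  obtain ⟨U, W, h1, h2, h3⟩ := opt (A₀ := F0 L) (T := FT L) (by norm_num)
    (S₀ := (Finset.range (nb L + 1)).image fun v : ℕ => (v : ℚ)) (by
      rw [Finset.card_image_of_injective _ Nat.cast_injective, Finset.card_range]
      simp [nb]) h.sy0 h.syT h.wiT
    (x := fun i : Fin (L.length - 1) => (((sol L).getD i 0 : ℕ) : ℚ))
    fun i j v' hv' w' hw' => by
      obtain ⟨v, hv, rfl⟩ := Finset.mem_image.1 hv'
      obtain ⟨w, hw, rfl⟩ := Finset.mem_image.1 hw'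
      rw [Finset.mem_range] at hv hw
      have h4 := o (((sol L).set i v).set j w) (by
        simp only [cd, List.mem_flatMap, List.mem_map, List.mem_range]
        exact ⟨i, i.2, j, j.2, v, by omega, w, by omega, rfl⟩)
      have p1 := hp (sol L)
      have p2 := hp (((sol L).set i v).set j w)
      rw [show (fun k : Fin (L.length - 1) =>
          (((((sol L).set i v).set j w).getD k 0 : ℕ) : ℚ)) =
        update (update (fun k : Fin (L.length - 1) => (((sol L).getD k 0 : ℕ) : ℚ)) i v) j w from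
          funext fun k => by
          simp only [update_apply, List.getD_eq_getElem?_getD, List.getElem?_set, Fin.ext_iff,
            List.length_set, hl, i.2, j.2, eq_comm (a := k.1)]
          split_ifs <;> rfl] at p2
      omega
  refine ⟨U, W, h1, h2, ?_⟩
  have h4 := h.ker_ev fun i => ((sol L).getD i 0 : ℕ)
  omega

/-- **The maximum rank.** -/
theorem Good.max (h : Good L) (y : ℕ → ℚ) :
    (SR.val L y).rank ≤ (SR.val L (fun i => ((sol L).getD i 0 : ℕ))).rank := by
  obtain ⟨U, W, h1, h2, h3⟩ := h.cert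
  have h4 := cert_bound h1 h2 fun i : Fin (L.length - 1) => y i
  have h5 := h.ker_ev y
  omega

end Pool.Agent.L5helper60.SR
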