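import Pool.Agent.L5helper60.SR.Opt
import Pool.Agent.L5helper60.SR.Defs

set_option autoImplicit false

/-!
# Matrices and forms
-/

namespace Pool.Agent.L5helper60.SR

open Module Submodule Function

universe u

variable {K : Type u} [Field K] {n : ℕ}

/-- the bilinear form of a matrix -/
noncomputable def bl (M : Matrix (Fin n) (Fin n) K) : (Fin n → K) →ₗ[K] Dual K (Fin n → K) :=
  Matrix.toBilin' M

lemma bl_apply (M : Matrix (Fin n) (Fin n) K) (u v : Fin n → K) :
    bl M u v = u ⬝ᵥ M.mulVec v := Matrix.toBilin'_apply' M u v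

lemma bl_symm {M : Matrix (Fin n) (Fin n) K} (h : M.IsSymm) (u v : Fin n → K) :
    bl M u v = M.mulVec u ⬝ᵥ v := by
  rw [bl_apply, Matrix.dotProduct_mulVec, ← Matrix.mulVec_transpose, h.eq]

lemma sy_bl {M : Matrix (Fin n) (Fin n) K} (h : M.IsSymm) : Sy (bl M) := by
  intro u v
  rw [bl_symm h, bl_apply, dotProduct_comm]

lemma bl_eq_zero {M : Matrix (Fin n) (Fin n) K} (h : M.IsSymm) (u : Fin n → K) :
    bl M u = 0 ↔ M.mulVec u = 0 := by
  constructor
  · intro h0
    apply dotProduct_eq_zero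
    intro v
    rw [← bl_symm h, h0]
    rfl
  · intro h0
    refine LinearMap.ext fun v => ?_
    rw [bl_symm h, h0, zero_dotProduct]
    rfl

lemma wi_bl {M : Matrix (Fin n) (Fin n) K} (h : M.IsSymm) (hw : Witt M) : Wi (bl M) := by
  intro u v h1 h2 h3
  rw [bl_apply] at h1 h2 h3
  obtain ⟨a, b, hab, h4⟩ := hw u v h1 h2 h3
  refine ⟨a, b, hab, ?_⟩
  rw [← map_smul, ← map_smul, ← map_add, bl_eq_zero h]
  exact h4

lemma witt_of_wi {M : Matrix (Fin n) (Fin n) K} (h : M.IsSymm) (hw : Wi (bl M)) : Witt M := by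
  intro u v h1 h2 h3
  rw [← bl_apply] at h1 h2 h3
  obtain ⟨a, b, hab, h4⟩ := hw u v h1 h2 h3
  refine ⟨a, b, hab, ?_⟩
  rw [← bl_eq_zero h, map_add, map_smul, map_smul, h4]

lemma ker_bl {M : Matrix (Fin n) (Fin n) K} (h : M.IsSymm) :
    LinearMap.ker (bl M) = LinearMap.ker M.mulVecLin := by
  ext u
  rw [LinearMap.mem_ker, LinearMap.mem_ker, bl_eq_zero h]
  rfl

lemma rank_add_ker (M : Matrix (Fin n) (Fin n) K) :
    M.rank + finrank K (LinearMap.ker M.mulVecLin) = n := by
  have := M.mulVecLin.finrank_range_add_finrank_ker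
  rwa [Module.finrank_fin_fun] at this

lemma rank_bl {M : Matrix (Fin n) (Fin n) K} (h : M.IsSymm) :
    M.rank + finrank K (LinearMap.ker (bl M)) = n := by
  rw [ker_bl h, rank_add_ker]

lemma range_bl {M : Matrix (Fin n) (Fin n) K} (h : M.IsSymm) :
    finrank K (LinearMap.range (bl M)) = M.rank := by
  have h1 := (bl M).finrank_range_add_finrank_ker
  rw [Module.finrank_fin_fun] at h1
  have h2 := rank_bl h
  omega

/-- symmetric matrices of rank at most three -/
lemma witt_of_rank {M : Matrix (Fin n) (Fin n) K} (h : M.IsSymm) (hr : M.rank ≤ 3) : Witt M :=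
  witt_of_wi h (wi_of_rank (sy_bl h) (by rw [range_bl h]; exact hr))

lemma witt_smul {M : Matrix (Fin n) (Fin n) K} {d : K} (hd : d ≠ 0) (h : Witt M) :
    Witt (d • M) := by
  intro u v h1 h2 h3
  simp only [Matrix.smul_mulVec, dotProduct_smul, smul_eq_mul, mul_eq_zero, hd, false_or]
    at h1 h2 h3
  obtain ⟨a, b, hab, h4⟩ := h u v h1 h2 h3
  exact ⟨a, b, hab, by rw [Matrix.smul_mulVec, h4, smul_zero]⟩

lemma bl_add (M N : Matrix (Fin n) (Fin n) K) : bl (M + N) = bl M + bl N := by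
  rw [bl, map_add]
  rfl

lemma bl_smul (d : K) (M : Matrix (Fin n) (Fin n) K) : bl (d • M) = d • bl M := by
  rw [bl, map_smul]
  rfl

lemma bl_sum {ι : Type} (s : Finset ι) (M : ι → Matrix (Fin n) (Fin n) K) :
    bl (∑ i ∈ s, M i) = ∑ i ∈ s, bl (M i) := by
  rw [bl, map_sum]
  rfl

lemma bl_single (M : Matrix (Fin n) (Fin n) K) (s t : Fin n) :
    bl M (Pi.single s 1) (Pi.single t 1) = M s t := Matrix.toBilin'_single M s t

lemma rank_smul' {M : Matrix (Fin n) (Fin n) K} {d : K} (hd : d ≠ 0) :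
    (d • M).rank = M.rank := by
  have h1 := rank_add_ker (d • M)
  have h2 := rank_add_ker M
  have h3 : LinearMap.ker (d • M).mulVecLin = LinearMap.ker M.mulVecLin := by
    ext u
    simp only [LinearMap.mem_ker, Matrix.mulVecLin_apply, Matrix.smul_mulVec, smul_eq_zero, hd,
      false_or]
  rw [h3] at h1
  omega

/-- vectors as functionals -/
lemma finrank_le_of_bl {A : Submodule K (Fin n → K)} {W : Submodule K (Dual K (Fin n → K))}
    (h : ∀ w ∈ A, ∃ f ∈ W, ∀ v, f v = w ⬝ᵥ v) : finrank K A ≤ finrank K W := by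
  obtain ⟨e, he⟩ : ∃ e : (Fin n → K) →ₗ[K] Dual K (Fin n → K), ∀ w v, e w v = w ⬝ᵥ v := by
    refine ⟨bl 1, fun w v => ?_⟩
    rw [bl_apply, Matrix.one_mulVec]
  have hinj : Injective e := by
    rw [injective_iff_map_eq_zero]
    intro w hw
    apply dotProduct_eq_zero
    intro v
    rw [← he, hw]
    rfl
  have hle : A.map e ≤ W := by
    rintro _ ⟨w, hw, rfl⟩
    obtain ⟨f, hf, hfw⟩ := h w hw
    have : e w = f := LinearMap.ext fun v => by rw [he, hfw]
    rwa [this]
  rw [← LinearMap.finrank_range_of_inj (f := e.domRestrict A) (by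
    intro a b hab
    exact Subtype.ext (hinj hab))]
  refine (finrank_mono ?_).trans (finrank_mono hle)
  rintro _ ⟨u, rfl⟩
  exact ⟨u, u.2, rfl⟩

/-! ### The formula -/

/-- the matrix for given values of the variables -/
def vl {k : ℕ} (A₀ : Matrix (Fin n) (Fin n) K) (A : Fin k → Matrix (Fin n) (Fin n) K)
    (x : Fin k → K) : Matrix (Fin n) (Fin n) K := A₀ + ∑ i, x i • A i

/-- the sum of the images of a subspace -/
def ims {k : ℕ} (A₀ : Matrix (Fin n) (Fin n) K) (A : Fin k → Matrix (Fin n) (Fin n) K)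
    (U : Submodule K (Fin n → K)) : Submodule K (Fin n → K) :=
  U.map A₀.mulVecLin ⊔ ⨆ i, U.map (A i).mulVecLin

variable {k : ℕ} {A₀ : Matrix (Fin n) (Fin n) K} {A : Fin k → Matrix (Fin n) (Fin n) K}

lemma ev_bl (x : Fin k → K) : ev (bl A₀) (fun i => bl (A i)) x = bl (vl A₀ A x) := by
  rw [ev, vl, bl_add, bl_sum]
  simp only [bl_smul]

/-- The easy inequality. -/
theorem vl_rank_le (U : Submodule K (Fin n → K)) (x : Fin k → K) :
    (vl A₀ A x).rank + finrank K U ≤ n + finrank K (ims A₀ A U) := by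
  have h1 := rank_add_ker (vl A₀ A x)
  have h2 := fr_map U (vl A₀ A x).mulVecLin
  have h3 : finrank K (U.map (vl A₀ A x).mulVecLin) ≤ finrank K (ims A₀ A U) := by
    apply finrank_mono
    rintro _ ⟨u, hu, rfl⟩
    rw [Matrix.mulVecLin_apply, vl, Matrix.add_mulVec, Matrix.sum_mulVec]
    refine Submodule.add_mem _ (mem_sup_left ⟨u, hu, rfl⟩)
      (Submodule.sum_mem _ fun i _ => ?_)
    rw [Matrix.smul_mulVec]
    exact Submodule.smul_mem _ _ (mem_sup_right (mem_iSup_of_mem i ⟨u, hu, rfl⟩))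
  have h4 : finrank K (U ⊓ LinearMap.ker (vl A₀ A x).mulVecLin : Submodule K _) ≤
      finrank K (LinearMap.ker (vl A₀ A x).mulVecLin) := finrank_mono inf_le_right
  omega

lemma formula_of_cert (h0 : A₀.IsSymm) (hA : ∀ i, (A i).IsSymm) {x : Fin k → K}
    {U : Submodule K (Fin n → K)} {W : Submodule K (Dual K (Fin n → K))}
    (h1 : ∀ u ∈ U, bl A₀ u ∈ W) (h2 : ∀ i, ∀ u ∈ U, bl (A i) u ∈ W)
    (h3 : finrank K U = finrank K W + finrank K (LinearMap.ker (bl (vl A₀ A x)))) :
    (vl A₀ A x).rank + finrank K U = n + finrank K (ims A₀ A U) := by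
  have hs : (vl A₀ A x).IsSymm := by
    rw [Matrix.IsSymm, vl, Matrix.transpose_add, h0.eq, Matrix.transpose_sum]
    congr 1
    apply Finset.sum_congr rfl
    intro i _
    rw [Matrix.transpose_smul, (hA i).eq]
  have h4 := rank_bl hs
  have h5 := vl_rank_le (A₀ := A₀) (A := A) U x
  have h6 : finrank K (ims A₀ A U) ≤ finrank K W := by
    have h7 : ims A₀ A U ≤ W.comap (bl 1) := by
      refine sup_le ?_ (iSup_le fun i => ?_)
      · rintro _ ⟨u, hu, rfl⟩
        show bl 1 (A₀.mulVec u) ∈ W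
        have : bl 1 (A₀.mulVec u) = bl A₀ u := LinearMap.ext fun v => by
          rw [bl_symm h0, bl_apply, Matrix.one_mulVec]
        rw [this]
        exact h1 u hu
      · rintro _ ⟨u, hu, rfl⟩
        show bl 1 ((A i).mulVec u) ∈ W
        have : bl 1 ((A i).mulVec u) = bl (A i) u := LinearMap.ext fun v => by
          rw [bl_symm (hA i), bl_apply, Matrix.one_mulVec]
        rw [this]
        exact h2 i u hu
    apply finrank_le_of_bl
    intro w hw
    exact ⟨bl 1 w, h7 hw, fun v => by rw [bl_apply, Matrix.one_mulVec]⟩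
  omega

/-- **The formula for the rank.** -/
theorem formula (hK : (2 : K) ≠ 0) (S : Finset K) (hS : (k + 2) * (n + 1) < S.card)
    (h0 : A₀.IsSymm) (hA : ∀ i, (A i).IsSymm ∧ Witt (A i)) :
    ∃ x : Fin k → K, (∀ i, x i ∈ S) ∧ ∃ U : Submodule K (Fin n → K),
      (vl A₀ A x).rank + finrank K U = n + finrank K (ims A₀ A U) := by
  obtain ⟨x, hx, U, W, h1, h2, h3⟩ := exists_opt (A₀ := bl A₀) (T := fun i => bl (A i)) hK
    (S₀ := S) (by
      rw [Fintype.card_option, Fintype.card_fin, Module.finrank_fin_fun]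
      nlinarith) (sy_bl h0) (fun i => sy_bl (hA i).1) (fun i => wi_bl (hA i).1 (hA i).2)
  rw [ev_bl] at h3
  exact ⟨x, hx, U, formula_of_cert h0 (fun i => (hA i).1) h1 h2 h3⟩

end Pool.Agent.L5helper60.SR
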