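import Pool.Agent.L5helper60.SR.Lin

set_option autoImplicit false

/-!
# A locally optimal substitution has maximum rank
-/

namespace Pool.Agent.L5helper60.SR

open Module Submodule Function

universe u

variable {K : Type u} [Field K] {V : Type u} [AddCommGroup V] [Module K V]
  [FiniteDimensional K V] {ι : Type} [Fintype ι]
  [DecidableEq ι] (A₀ : V →ₗ[K] Dual K V) (T : ι → V →ₗ[K] Dual K V)

/-- the form for given values of the variables -/
def ev (x : ι → K) : V →ₗ[K] Dual K V := A₀ + ∑ i, x i • T i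

/-- the dimension of the intersection of the kernels -/
noncomputable def kk (A C : V →ₗ[K] Dual K V) : ℕ := finrank K (LinearMap.ker (A.prod C))

/-- the forms, and zero -/
def fam (k : Option ι) : V →ₗ[K] Dual K V := k.elim 0 T

/-- the potential -/
noncomputable def pot (x : ι → K) : ℕ := ∑ k : Option ι, kk (ev A₀ T x) (fam T k)

omit [FiniteDimensional K V] in
lemma ev_up (x : ι → K) (i : ι) (v : K) :
    ev A₀ T (update x i v) = ev A₀ T x + (v - x i) • T i := by
  have h : update x i v = x + Pi.single i (v - x i) := by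
    ext k
    by_cases e : k = i
    · subst e; simp
    · simp [e]
  simp [ev, h, add_smul, Finset.sum_add_distrib, Pi.single_apply, ite_smul, add_assoc]

omit [FiniteDimensional K V] in
lemma kk_zero (A : V →ₗ[K] Dual K V) : kk A 0 = finrank K (LinearMap.ker A) := by
  rw [kk, LinearMap.ker_prod, LinearMap.ker_zero, inf_top_eq]

omit [FiniteDimensional K V] in
lemma prod_up (A B C : V →ₗ[K] Dual K V) (t : K) :
    (A + t • B).prod C = A.prod C + t • B.prod 0 :=
  LinearMap.ext fun u => by simp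

variable {A₀ T}

omit [FiniteDimensional K V] [DecidableEq ι] in
lemma sy_ev (h0 : Sy A₀) (hT : ∀ i, Sy (T i)) (x : ι → K) : Sy (ev A₀ T x) := by
  intro u v
  simp [ev, LinearMap.sum_apply, h0 u v, fun i => hT i u v]

lemma pick {b : ℕ} {S : Finset K} (hS : Fintype.card (Option ι) * finrank K V + 1 + b < S.card)
    {x : ι → K} (h : ∀ j, ∀ w ∈ S, pot A₀ T x ≤ pot A₀ T (update x j w)) (i : ι) (B : Finset K)
    (hB : B.card ≤ b) :
    ∃ v ∈ S, v - x i ≠ 0 ∧ v - x i ∉ B ∧
      ∀ k, kk (ev A₀ T (update x i v)) (fam T k) = kk (ev A₀ T x) (fam T k) := by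
  classical
  choose B' h1 h2 using fun k => generic ((ev A₀ T x).prod (fam T k)) ((T i).prod 0)
  obtain ⟨t, ht, hn⟩ := Finset.exists_mem_notMem_of_card_lt_card
    (s := insert 0 (B ∪ Finset.univ.biUnion B'))
    (t := S.image fun v : K => v - x i) (by
      rw [Finset.card_image_of_injective _ fun u v e => by simpa using e]
      have e1 := Finset.card_biUnion_le_card_mul Finset.univ B' (finrank K V) fun k _ => h1 k
      have e2 := Finset.card_insert_le 0 (B ∪ Finset.univ.biUnion B')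
      have e3 := Finset.card_union_le B (Finset.univ.biUnion B')
      rw [Finset.card_univ] at e1
      omega)
  obtain ⟨v, hv, rfl⟩ := Finset.mem_image.1 ht
  simp only [Finset.mem_insert, Finset.mem_union, Finset.mem_biUnion, Finset.mem_univ, true_and,
    not_or, not_exists] at hn
  refine ⟨v, hv, hn.1, hn.2.1, fun k => (Finset.sum_eq_sum_iff_of_le fun k _ => ?_).1
    (le_antisymm (Finset.sum_le_sum fun k _ => ?_) (h i v hv)) k (Finset.mem_univ _)⟩ <;>
  · refine le_of_eq_of_le ?_ (h2 k _ (hn.2.2 k))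
    rw [kk, ev_up, prod_up]

lemma r1_of {S : Finset K}
    (hS : Fintype.card (Option ι) * finrank K V + 1 + (finrank K V + 1) < S.card)
    (h0 : Sy A₀) (hT : ∀ i, Sy (T i)) {x : ι → K}
    (h : ∀ j, ∀ w ∈ S, pot A₀ T x ≤ pot A₀ T (update x j w)) (i : ι) :
    R1 (ev A₀ T x) (T i) := by
  by_contra hR
  obtain ⟨B, h1, h2⟩ := first_order (sy_ev h0 hT x) hR
  obtain ⟨v, -, -, h3, h4⟩ := pick hS h i B h1
  have h5 := h4 none
  have h6 := h2 _ h3
  rw [← ev_up, ← kk_zero, ← kk_zero] at h6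
  exact absurd h5 (by
    show kk _ 0 ≠ kk _ 0
    omega)

/-- **A locally optimal substitution is optimal**, with a certificate. -/
theorem opt (hK : (2 : K) ≠ 0) {S₀ : Finset K}
    (hS : Fintype.card (Option ι) * finrank K V + 1 + (finrank K V + 1) < S₀.card)
    (h0 : Sy A₀) (hT : ∀ i, Sy (T i)) (hw : ∀ i, Wi (T i))
    {x : ι → K} (h : ∀ i j, ∀ v ∈ S₀, ∀ w ∈ S₀,
      pot A₀ T x ≤ pot A₀ T (update (update x i v) j w)) :
    ∃ (U : Submodule K V) (W : Submodule K (Dual K V)), (∀ u ∈ U, A₀ u ∈ W) ∧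
      (∀ i, ∀ u ∈ U, T i u ∈ W) ∧
      finrank K U = finrank K W + finrank K (LinearMap.ker (ev A₀ T x)) := by
  classical
  have h1 : ∀ j, ∀ w ∈ S₀, pot A₀ T x ≤ pot A₀ T (update x j w) := fun j w hw => by
    simpa using h j j w hw w hw
  have hA := sy_ev h0 hT x
  have hR := r1_of hS h0 hT h1
  -- two steps for every form
  have step : ∀ (i : ι) (b : K), ∃ t : K, t ≠ 0 ∧ t ≠ b ∧
      (∀ k, kk (ev A₀ T x + t • T i) (fam T k) = kk (ev A₀ T x) (fam T k)) ∧
      ∀ j, R1 (ev A₀ T x + t • T i) (T j) := by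
    intro i b
    obtain ⟨v, h2, h3, h4, h5⟩ := pick (b := finrank K V + 1) hS h1 i {b} (by simp)
    refine ⟨v - x i, h3, by simpa using h4, by rw [← ev_up]; exact h5, ?_⟩
    rw [← ev_up]
    apply r1_of hS h0 hT
    intro j w hw
    have h6 : pot A₀ T (update x i v) = pot A₀ T x := Finset.sum_congr rfl fun k _ => h5 k
    rw [h6]
    exact h i j v h2 w hw
  obtain ⟨A, hAe⟩ : ∃ A, A = ev A₀ T x := ⟨_, rfl⟩
  rw [← hAe] at hA hR step ⊢
  -- active forms
  have hnf : ∀ i, ∃ q p f s, (∃ k, A k = 0 ∧ T i k ≠ 0) → Nf A (T i) q p f s := by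
    intro i
    by_cases ha : ∃ k, A k = 0 ∧ T i k ≠ 0
    · obtain ⟨q, p, f, s, hn⟩ := exists_nf hA (hT i) (hw i) (hR i) ha
      exact ⟨q, p, f, s, fun _ => hn⟩
    · exact ⟨0, 0, 0, 0, fun h => absurd h ha⟩
  choose q p f s n using hnf
  obtain ⟨act, hact⟩ : ∃ act : Set ι, act = {i | ∃ k, A k = 0 ∧ T i k ≠ 0} := ⟨_, rfl⟩
  have nn : ∀ i ∈ act, Nf A (T i) (q i) (p i) (f i) (s i) := by
    intro i hi
    rw [hact] at hi
    exact n i hi
  have hin : ∀ i ∉ act, ∀ u, A u = 0 → T i u = 0 := by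
    intro i hi u hu
    by_contra hne
    exact hi (by rw [hact]; exact ⟨u, hu, hne⟩)
  have hps : ∀ i ∈ act, p i (s i) = 0 ∧ T i (s i) = 0 := by
    intro i hi
    obtain ⟨t, ht, -, h2, h2'⟩ := step i 0
    have h3 := h2 none
    change kk _ 0 = kk _ 0 at h3
    rw [kk_zero, kk_zero] at h3
    exact (nn i hi).ps hA (hT i) (hR i) ht h3 (h2' i)
  have hpp : ∀ i ∈ act, ∀ j ∈ act, T j (s i) = q j (s i) • p j := by
    intro i hi j hj
    obtain ⟨t₁, ht₁, -, -, h2⟩ := step i 0
    obtain ⟨t₂, ht₂, hne, -, h3⟩ := step i t₁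
    exact (nn i hi).second hK hA (hT j) (hR i) (hR j) (nn j hj) (hps i hi).2 ht₁ ht₂ hne.symm (h2 j)
      (h3 j)
  have hts : ∀ i ∈ act, ∀ j ∉ act, T j (s i) = 0 := by
    intro i hi j hj
    obtain ⟨t, ht, -, h2, -⟩ := step i 0
    refine (nn i hi).inactive hA (hR i) (hps i hi).2 ht (hin j hj) ?_
    have h3 := h2 none
    change kk _ 0 = kk _ 0 at h3
    have h4 := h2 (some j)
    change kk _ (T j) = kk _ (T j) at h4
    have h5 : kk A (T j) = kk A 0 := by
      have e : LinearMap.ker A ⊓ LinearMap.ker (T j) = LinearMap.ker A :=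
        inf_eq_left.2 fun u hu => hin j hj u hu
      rw [kk, kk_zero, LinearMap.ker_prod, e]
    rw [h5, ← h3, kk_zero, kk, LinearMap.ker_prod] at h4
    have h6 := eq_of_le_of_finrank_eq inf_le_left h4
    intro u hu
    have h7 : u ∈ LinearMap.ker (A + t • T i) ⊓ LinearMap.ker (T j) := by
      rw [h6]
      exact hu
    exact h7.2
  -- the certificate
  obtain ⟨W, hW⟩ : ∃ W, W = span K (p '' act) := ⟨_, rfl⟩
  have hWp : ∀ i ∈ act, p i ∈ W := by
    intro i hi
    rw [hW]
    exact subset_span (Set.mem_image_of_mem p hi)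
  obtain ⟨S, hS⟩ : ∃ S, S = span K (s '' act) := ⟨_, rfl⟩
  have hUS : ∀ u, A u ∈ W → ∃ k c, A k = 0 ∧ c ∈ S ∧ u = k + c := by
    intro u hu
    have h2 : W = S.map A := by
      rw [hW, hS, map_span, ← Set.image_comp]
      congr 1
      apply Set.image_congr
      intro i hi
      exact ((nn i hi).im).symm
    rw [h2] at hu
    obtain ⟨c, hc, hcu⟩ := hu
    refine ⟨u - c, c, ?_, hc, by simp⟩
    rw [map_sub, hcu, sub_self]
  have hTU : ∀ j, ∀ u, A u ∈ W → T j u ∈ W := by
    intro j u hu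
    obtain ⟨k, c, hk, hc, rfl⟩ := hUS u hu
    rw [map_add]
    by_cases hj : j ∈ act
    · have e2 : S ≤ W.comap (T j) := by
        rw [hS, span_le]
        rintro _ ⟨i, hi, rfl⟩
        show T j (s i) ∈ W
        rw [hpp i hi j hj]
        exact W.smul_mem _ (hWp j hj)
      refine W.add_mem ?_ (e2 hc)
      rw [(nn j hj).eqK hA (hR j) hk]
      exact W.smul_mem _ (hWp j hj)
    · have e2 : S ≤ LinearMap.ker (T j) := by
        rw [hS, span_le]
        rintro _ ⟨i, hi, rfl⟩
        exact hts i hi j hj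
      rw [hin j hj k hk, zero_add, show T j c = 0 from e2 hc]
      exact W.zero_mem
  refine ⟨W.comap A, W, ?_, fun i u hu => hTU i u hu, ?_⟩
  · intro u hu
    have h2 : A₀ u = A u - ∑ i, x i • T i u := by
      rw [hAe, ev]
      simp [LinearMap.sum_apply]
    rw [h2]
    exact W.sub_mem hu (W.sum_mem fun i _ => W.smul_mem _ (hTU i u hu))
  · have e1 : W ≤ LinearMap.range A := by
      rw [hW, span_le]
      rintro _ ⟨i, hi, rfl⟩
      exact ⟨s i, (nn i hi).im⟩
    have e2 : LinearMap.ker A ≤ W.comap A := by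
      intro u hu
      show A u ∈ W
      rw [show A u = 0 from hu]
      exact W.zero_mem
    rw [fr_map (W.comap A) A, map_comap_eq, inf_eq_right.2 e1, inf_eq_right.2 e2]

omit [DecidableEq ι] in
/-- The certificate bounds the rank for all values of the variables. -/
theorem cert_bound {U : Submodule K V} {W : Submodule K (Dual K V)} (h0 : ∀ u ∈ U, A₀ u ∈ W)
    (hT : ∀ i, ∀ u ∈ U, T i u ∈ W) (y : ι → K) :
    finrank K U ≤ finrank K W + finrank K (LinearMap.ker (ev A₀ T y)) := by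
  rw [fr_map U (ev A₀ T y)]
  apply add_le_add
  · apply finrank_mono
    rintro _ ⟨u, hu, rfl⟩
    rw [ev, LinearMap.add_apply, LinearMap.sum_apply]
    exact W.add_mem (h0 u hu) (W.sum_mem fun i _ => W.smul_mem _ (hT i u hu))
  · exact finrank_mono inf_le_right

/-- Optimal substitutions exist. -/
theorem exists_opt (hK : (2 : K) ≠ 0) {S₀ : Finset K}
    (hS : Fintype.card (Option ι) * finrank K V + 1 + (finrank K V + 1) < S₀.card)
    (h0 : Sy A₀) (hT : ∀ i, Sy (T i)) (hw : ∀ i, Wi (T i)) :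
    ∃ x : ι → K, (∀ i, x i ∈ S₀) ∧
      ∃ (U : Submodule K V) (W : Submodule K (Dual K V)), (∀ u ∈ U, A₀ u ∈ W) ∧
      (∀ i, ∀ u ∈ U, T i u ∈ W) ∧
      finrank K U = finrank K W + finrank K (LinearMap.ker (ev A₀ T x)) := by
  classical
  have hne : Nonempty S₀ := by
    have : 0 < S₀.card := by omega
    exact (Finset.card_pos.1 this).to_subtype
  obtain ⟨x, hx⟩ := Finite.exists_min fun x : ι → S₀ => pot A₀ T fun i => (x i : K)
  refine ⟨fun i => x i, fun i => (x i).2, opt hK hS h0 hT hw ?_⟩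
  intro i j v hv w hw
  have h1 := hx (update (update x i ⟨v, hv⟩) j ⟨w, hw⟩)
  have e : (fun k => ((update (update x i ⟨v, hv⟩) j ⟨w, hw⟩ k : S₀) : K)) =
      update (update (fun k => (x k : K)) i v) j w := by
    funext k
    simp only [update_apply]
    split_ifs <;> rfl
  rw [e] at h1
  exact h1

end Pool.Agent.L5helper60.SR
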