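import Pool.Agent.Lib.helper22.ParF
import Pool.Agent.L5helper60.SR.Mat

set_option autoImplicit false

/-!
# Computation of the potential
-/

namespace Pool.Agent.L5helper60.SR

open Module Submodule Function
open Pool.Agent.Lib.CX Pool.Agent.Lib.helper22.CXDet
open Pool.Agent.Lib.Par (rk rk_eq Rep pt_rk)

/-- the rows of two tables -/
def se (n : ℕ) (A C : List (List ℤ)) (r s : ℕ) : ℤ := if r < n then en A r s else en C (r - n) s

/-- the rank of two tables one above the other -/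
def srk (n : ℕ) (A C : List (List ℤ)) : ℕ :=
  rk (tb (2 * n) fun r q => ((List.range n).map fun s => se n A C r s * se n A C q s).sum)

theorem srk_eq {n : ℕ} {A C : List (List ℤ)} {A' C' : (Fin n → ℚ) →ₗ[ℚ] Dual ℚ (Fin n → ℚ)}
    (hA : Rep A A') (hC : Rep C C') (sA : Sy A') (sC : Sy C') : srk n A C + kk A' C' = n := by
  let β : LinearMap.BilinForm ℚ (Fin n → ℚ) :=
    LinearMap.mk₂ ℚ (fun x y => x ⬝ᵥ y) (by intros; simp) (by intros; simp) (by intros; simp)
      (by intros; simp)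
  have hp : ∀ x, x ≠ 0 → 0 < β x x := fun x hx => by
    have k : 0 ≤ x ⬝ᵥ x := Finset.sum_nonneg fun i _ => mul_self_nonneg _
    refine lt_of_le_of_ne k fun e => hx ?_
    exact dotProduct_self_eq_zero.1 e.symm
  let v : ℕ → (Fin n → ℚ) := fun r s => (se n A C r s : ℚ)
  have l : ∀ m f, (tb m f).length = m := by simp [tb]
  rw [srk, rk_eq (β := β) (fun x y => by simp [β, dotProduct_comm]) hp v fun i hi j hj => ?_, l]
  swap
  · rw [l] at hi hj
    rw [en_tb hi hj, ← List.sum_toFinset _ List.nodup_range, List.toFinset_range, Finset.sum_range]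
    simp [β, v, dotProduct]
  have h := LinearMap.BilinForm.finrank_add_finrank_orthogonal' (B := β)
    (span ℚ (v '' Set.Iio (2 * n)))
  rw [show LinearMap.ker β = ⊥ from eq_bot_iff.2 fun x hx => by_contra fun k => (hp x k).ne' (by
    rw [show β x = 0 from hx]; rfl), inf_bot_eq, finrank_bot] at h
  have e1 : ∀ (w : Fin n → ℚ) (t : Fin n), v t ⬝ᵥ w = A' w (Pi.single t 1) := fun w t => by
    rw [sA]
    conv_rhs => rw [pi_eq_sum_univ' w]
    simp [dotProduct, v, se, ← hA t, mul_comm]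
  have e2 : ∀ (w : Fin n → ℚ) (t : Fin n), v (n + t) ⬝ᵥ w = C' w (Pi.single t 1) := fun w t => by
    rw [sC]
    conv_rhs => rw [pi_eq_sum_univ' w]
    simp [dotProduct, v, se, ← hC t, mul_comm]
  have z : ∀ f : Dual ℚ (Fin n → ℚ), f = 0 ↔ ∀ t, f (Pi.single t 1) = 0 := fun f =>
    ⟨fun e _ => by rw [e]; rfl, fun e => (Pi.basisFun ℚ _).ext fun t => by simpa using e t⟩
  rw [kk, show LinearMap.ker (A'.prod C') = β.orthogonal (span ℚ (v '' Set.Iio (2 * n))) from
    Submodule.ext fun w => ?_]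
  · simpa using h
  rw [LinearMap.ker_prod, LinearMap.BilinForm.mem_orthogonal_iff, mem_inf, LinearMap.mem_ker,
    LinearMap.mem_ker, z, z]
  refine ⟨fun k x hx => (span_le.2 ?_ : _ ≤ LinearMap.ker (β.flip w)) hx, fun k => ⟨fun t => ?_,
    fun t => ?_⟩⟩
  · rintro _ ⟨r, hr, rfl⟩
    have hr : r < 2 * n := hr
    show v r ⬝ᵥ w = 0
    by_cases hrn : r < n
    · exact (e1 w ⟨r, hrn⟩).trans (k.1 _)
    · obtain ⟨q, rfl⟩ := Nat.exists_eq_add_of_le (not_lt.1 hrn)
      exact (e2 w ⟨q, by omega⟩).trans (k.2 _)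
  · rw [← e1]
    exact k _ (subset_span ⟨t, by have := t.2; simp only [Set.mem_Iio]; omega, rfl⟩)
  · rw [← e2]
    exact k _ (subset_span ⟨n + t, by have := t.2; simp only [Set.mem_Iio]; omega, rfl⟩)

end Pool.Agent.L5helper60.SR
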